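import Mathlib
import Pool.Agent.W586.RK.UB

/-! MP_788af2_nt (helper45): the sum of the values of the quadratic character of a number that is
not a square, over the primes, divided by the primes, is bounded above. -/

namespace Pool.Agent.V7H45.NS

open Finset Filter Topology
open Pool.Agent.W262.RK Pool.Agent.W586.RK.UB

/-- a periodic completely multiplicative function with mean zero -/
theorem per_bound (f : ℕ →*₀ ℝ) (f_abs : ∀ n, |f n| ≤ 1) {q : ℕ} (hq : 1 ≤ q)
    (f_per : Function.Periodic f q) (f_sum : ∑ n ∈ range q, f n = 0) :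
    ∃ C : ℝ, ∀ y : ℕ, 3 ≤ y → ∑ p ∈ (Icc 1 y).filter Nat.Prime, f p / (p : ℝ) ≤ C := by
  obtain ⟨C1, hC1⟩ := Pool.Agent.Helper256.KM.mertens_log
  obtain ⟨C2, hC2⟩ := Pool.Agent.Helper256.KM.mertens_inv
  have hC10 : 0 ≤ C1 := (abs_nonneg _).trans (hC1 1 le_rfl)
  set K : ℝ := Real.log (q : ℝ) + 2 with hK
  have hlogq : 0 ≤ Real.log (q : ℝ) := Real.log_nonneg (by exact_mod_cast hq)
  have hK0 : 0 < K := by linarith
  have hl3 : 1 ≤ Real.log 3 := by
    rw [Real.le_log_iff_exp_le (by norm_num)]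
    linarith [Real.exp_one_lt_d9]
  refine ⟨Real.log 2 + Real.log K + C2 + 2 + 2 * C1, ?_⟩
  intro y hy3
  have hLy : 1 ≤ Real.log y :=
    hl3.trans (Real.log_le_log (by norm_num) (by exact_mod_cast hy3))
  set s : ℝ := 1 / Real.log y with hs
  have hLy0 : 0 < Real.log y := by linarith
  have hs0 : 0 < s := by positivity
  have hs1 : s ≤ 1 := by rw [hs, div_le_one hLy0]; exact hLy
  set T : Finset Nat.Primes := Finset.subtype Nat.Prime (Icc 1 y) with hT
  have hconv : ∀ g : ℕ → ℝ, ∑ p ∈ T, g (p : ℕ) = ∑ p ∈ (Icc 1 y).filter Nat.Prime, g p := by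
    intro g
    exact Finset.sum_subtype_eq_sum_filter (s := Icc 1 y) (p := Nat.Prime) g
  obtain ⟨hsum, hEL⟩ := euler_lower f f_abs s hs0 hs1 T
  have hLb := L_bound hq f_abs f_per f_sum s hs0 hsum
  rw [← hK] at hLb
  have h2s : 2 / s = 2 * Real.log y := by
    rw [hs]; field_simp
  rw [h2s] at hEL
  have h1 : ∑ p ∈ T, (1 + f (p : ℕ)) * ((p : ℕ) : ℝ) ^ (-(1 + s)) ≤
      Real.log 2 + Real.log (Real.log y) + Real.log K := by
    have h2 := hEL.trans (mul_le_mul_of_nonneg_left hLb (by positivity))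
    rw [← Real.log_mul (by positivity) (by linarith),
      ← Real.log_mul (by positivity) hK0.ne']
    rw [Real.le_log_iff_exp_le (by positivity)]
    exact h2
  have h3 : ∑ p ∈ T, (1 + f (p : ℕ)) * ((p : ℕ) : ℝ) ^ (-(1 + s)) ≥
      ∑ p ∈ (Icc 1 y).filter Nat.Prime, ((1 : ℝ) / p + f p / p - 2 * s * (Real.log p / p)) := by
    rw [ge_iff_le, ← hconv (fun p => (1 : ℝ) / p + f p / p - 2 * s * (Real.log p / p))]
    refine sum_le_sum fun p _ => ?_
    have hp1 : (1 : ℝ) < ((p : ℕ) : ℝ) := by exact_mod_cast p.2.one_lt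
    have hp0 : (0 : ℝ) < ((p : ℕ) : ℝ) := by linarith
    have hlp : 0 < Real.log ((p : ℕ) : ℝ) := Real.log_pos hp1
    have h4 : ((p : ℕ) : ℝ) ^ (-(1 + s)) = ((p : ℕ) : ℝ) ^ (-s) / (p : ℕ) := by
      rw [show -(1 + s) = -s - 1 by ring, Real.rpow_sub hp0, Real.rpow_one]
    have h5 : 1 - s * Real.log ((p : ℕ) : ℝ) ≤ ((p : ℕ) : ℝ) ^ (-s) := by
      rw [Real.rpow_def_of_pos hp0]
      have := Real.add_one_le_exp (Real.log ((p : ℕ) : ℝ) * -s)
      linarith
    have h6 := abs_le.1 (f_abs p)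
    have h7 : (1 + f (p : ℕ)) * (1 - s * Real.log ((p : ℕ) : ℝ)) ≤
        (1 + f (p : ℕ)) * ((p : ℕ) : ℝ) ^ (-s) := mul_le_mul_of_nonneg_left h5 (by linarith)
    have h8 : (1 + f (p : ℕ)) * (s * Real.log ((p : ℕ) : ℝ)) ≤ 2 * (s * Real.log ((p : ℕ) : ℝ)) :=
      mul_le_mul_of_nonneg_right (by linarith) (by positivity)
    have h9 : (1 + f (p : ℕ) - 2 * (s * Real.log ((p : ℕ) : ℝ))) ≤
        (1 + f (p : ℕ)) * ((p : ℕ) : ℝ) ^ (-s) := by linarith
    calc (1 : ℝ) / (p : ℕ) + f p / (p : ℕ) - 2 * s * (Real.log (p : ℕ) / (p : ℕ))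
        = (1 + f (p : ℕ) - 2 * (s * Real.log ((p : ℕ) : ℝ))) / (p : ℕ) := by ring
      _ ≤ ((1 + f (p : ℕ)) * ((p : ℕ) : ℝ) ^ (-s)) / (p : ℕ) :=
          div_le_div_of_nonneg_right h9 hp0.le
      _ = _ := by rw [h4]; ring
  rw [sum_sub_distrib, sum_add_distrib, ← mul_sum] at h3
  have h10 := (abs_le.1 (hC2 y hy3)).1
  have h11 := (abs_le.1 (hC1 y (by omega))).2
  have h12 : 2 * s * ∑ p ∈ (Icc 1 y).filter Nat.Prime, Real.log p / p ≤ 2 + 2 * C1 := by
    have h13 : 2 * s * ∑ p ∈ (Icc 1 y).filter Nat.Prime, Real.log p / p ≤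
        2 * s * (Real.log y + C1) := mul_le_mul_of_nonneg_left (by linarith) (by positivity)
    have h14 : 2 * s * (Real.log y + C1) = 2 + 2 * (s * C1) := by
      rw [hs]; field_simp
    have h15 : s * C1 ≤ 1 * C1 := mul_le_mul_of_nonneg_right hs1 hC10
    linarith
  linarith

/-- a difference of a bounded number of primes does not matter -/
lemma PS_shift (g : ℕ → ℝ) (hg : ∀ p, |g p| ≤ 1) (z1 z2 : ℕ) (C : ℝ)
    (h : ∀ y : ℕ, z1 < y → ∑ p ∈ PS z1 y, g p / (p : ℝ) ≤ C) :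
    ∀ y : ℕ, z2 < y → ∑ p ∈ PS z2 y, g p / (p : ℝ) ≤ |C| + z1 + z2 + 2 := by
  intro y hy
  have hb : ∀ p : ℕ, 1 ≤ p → |g p / (p : ℝ)| ≤ 1 := by
    intro p hp
    have hp0 : (1 : ℝ) ≤ p := by exact_mod_cast hp
    rw [abs_div, abs_of_pos (by linarith : (0 : ℝ) < p), div_le_one (by linarith)]
    exact (hg p).trans hp0
  set Y := max y (z1 + 1) with hY
  have hYz : z1 < Y := by omega
  have h1 := h Y hYz
  -- compare with the sum over all primes
  have hcard : ∀ n : ℕ, ∀ S : Finset ℕ, S ⊆ Icc 1 n → |∑ p ∈ S, g p / (p : ℝ)| ≤ n := by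
    intro n S hS
    calc |∑ p ∈ S, g p / (p : ℝ)| ≤ ∑ p ∈ S, |g p / (p : ℝ)| := abs_sum_le_sum_abs _ _
      _ ≤ ∑ p ∈ S, (1 : ℝ) := sum_le_sum fun p hp => hb p (mem_Icc.1 (hS hp)).1
      _ = (S.card : ℝ) := by simp
      _ ≤ n := by
        have : S.card ≤ n := (card_le_card hS).trans (by simp)
        exact_mod_cast this
  rcases le_total z2 z1 with h12 | h12
  · rcases le_or_gt y z1 with hyz | hyz
    · have h3 := (abs_le.1 (hcard z1 (PS z2 y) (by
        intro p hp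
        simp only [PS, mem_filter, mem_Ioc] at hp
        rw [mem_Icc]; omega))).2
      have h4 : (0 : ℝ) ≤ z2 := Nat.cast_nonneg _
      have h5 := abs_nonneg C
      linarith
    · have hsp : ∑ p ∈ PS z2 y, g p / (p : ℝ) =
          ∑ p ∈ PS z2 z1, g p / (p : ℝ) + ∑ p ∈ PS z1 y, g p / (p : ℝ) := by
        rw [← sum_union]
        · refine sum_congr ?_ fun _ _ => rfl
          ext p
          simp only [PS, mem_union, mem_filter, mem_Ioc]
          constructor
          · rintro ⟨⟨h1, h2⟩, h3⟩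
            rcases Nat.lt_or_ge z1 p with h4 | h4
            · right; exact ⟨⟨h4, h2⟩, h3⟩
            · left; exact ⟨⟨h1, h4⟩, h3⟩
          · rintro (⟨⟨h1, h2⟩, h3⟩ | ⟨⟨h1, h2⟩, h3⟩)
            · exact ⟨⟨h1, by omega⟩, h3⟩
            · exact ⟨⟨by omega, h2⟩, h3⟩
        · rw [Finset.disjoint_left]
          intro p h1 h2
          simp only [PS, mem_filter, mem_Ioc] at h1 h2
          omega
      have h3 := (abs_le.1 (hcard z1 (PS z2 z1) (by
        intro p hp
        simp only [PS, mem_filter, mem_Ioc] at hp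
        rw [mem_Icc]; omega))).2
      have h4 : (0 : ℝ) ≤ z2 := Nat.cast_nonneg _
      have h5 := le_abs_self C
      have h6 := h y hyz
      linarith
  · have hsp : ∑ p ∈ PS z1 y, g p / (p : ℝ) =
        ∑ p ∈ PS z1 z2, g p / (p : ℝ) + ∑ p ∈ PS z2 y, g p / (p : ℝ) := by
      rw [← sum_union]
      · refine sum_congr ?_ fun _ _ => rfl
        ext p
        simp only [PS, mem_union, mem_filter, mem_Ioc]
        constructor
        · rintro ⟨⟨h1, h2⟩, h3⟩
          rcases Nat.lt_or_ge z2 p with h4 | h4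
          · right; exact ⟨⟨h4, h2⟩, h3⟩
          · left; exact ⟨⟨h1, h4⟩, h3⟩
        · rintro (⟨⟨h1, h2⟩, h3⟩ | ⟨⟨h1, h2⟩, h3⟩)
          · exact ⟨⟨h1, by omega⟩, h3⟩
          · exact ⟨⟨by omega, h2⟩, h3⟩
      · rw [Finset.disjoint_left]
        intro p h1 h2
        simp only [PS, mem_filter, mem_Ioc] at h1 h2
        omega
    have h3 := (abs_le.1 (hcard z2 (PS z1 z2) (by
      intro p hp
      simp only [PS, mem_filter, mem_Ioc] at hp
      rw [mem_Icc]; omega))).1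
    have h4 : (0 : ℝ) ≤ z1 := Nat.cast_nonneg _
    have h5 := le_abs_self C
    have h6 := h y (by omega)
    linarith

/-- the bound for `-1`, `2` and `-2` -/
lemma small_bound (κ : ℤ) (hκ : κ = -1 ∨ κ = 2 ∨ κ = -2) :
    ∃ C : ℝ, ∀ y : ℕ, 2 < y → ∑ p ∈ PS 2 y, Jr κ p / (p : ℝ) ≤ C := by
  have hκ0 : κ ≠ 0 := by rcases hκ with h | h | h <;> rw [h] <;> norm_num
  have hq : 1 ≤ 4 * κ.natAbs * 1 := by
    have := Int.natAbs_pos.2 hκ0
    omega
  have hex : ∃ n0 : ℕ, Nat.Coprime n0 (4 * κ.natAbs * 1) ∧ ff κ 1 false n0 = -1 := by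
    have e1 : ∀ n : ℕ, Odd n → ff κ 1 false n = ((jacobiSym κ n : ℤ) : ℝ) := by
      intro n hn
      rw [ff_apply, if_pos hn]
      simp [Jr, x4]
    rcases hκ with h | h | h
    · refine ⟨3, by rw [h]; decide, ?_⟩
      rw [e1 3 (by decide), h]
      have : jacobiSym (-1) 3 = -1 := by
        rw [jacobiSym.at_neg_one (by decide)]; decide
      rw [this]; norm_num
    · refine ⟨3, by rw [h]; decide, ?_⟩
      rw [e1 3 (by decide), h]
      have : jacobiSym 2 3 = -1 := by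
        rw [jacobiSym.at_two (by decide)]; decide
      rw [this]; norm_num
    · refine ⟨5, by rw [h]; decide, ?_⟩
      rw [e1 5 (by decide), h]
      have : jacobiSym (-2) 5 = -1 := by
        rw [jacobiSym.at_neg_two (by decide)]; decide
      rw [this]; norm_num
  obtain ⟨n0, hn0, hf0⟩ := hex
  have hsum := sum_period (by omega : 4 * κ.natAbs * 1 ≠ 0) (ff_per κ 1 false) hn0 (by
    intro n
    rw [map_mul, hf0]
    ring)
  obtain ⟨C, hC⟩ := per_bound (ff κ 1 false) (ff_abs κ 1 false) hq (ff_per κ 1 false) hsum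
  refine ⟨C, fun y hy => ?_⟩
  have h1 := hC y (by omega)
  have h2 : ∑ p ∈ (Icc 1 y).filter Nat.Prime, ff κ 1 false p / (p : ℝ) =
      ∑ p ∈ PS 2 y, Jr κ p / (p : ℝ) := by
    have hsub : PS 2 y ⊆ (Icc 1 y).filter Nat.Prime := by
      intro p hp
      simp only [PS, mem_filter, mem_Ioc] at hp
      rw [mem_filter, mem_Icc]
      exact ⟨⟨by omega, hp.1.2⟩, hp.2⟩
    rw [← sum_subset hsub]
    · apply sum_congr rfl
      intro p hp
      simp only [PS, mem_filter, mem_Ioc] at hp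
      have hodd : Odd p := hp.2.odd_of_ne_two (by omega)
      rw [ff_apply, if_pos hodd]
      simp [Jr, x4]
    · intro p hp hp2
      simp only [PS, mem_filter, mem_Ioc, not_and] at hp2
      rw [mem_filter, mem_Icc] at hp
      have : p = 2 := by
        by_contra h
        have := hp.2.two_le
        exact hp2 ⟨by omega, hp.1.2⟩ hp.2
      rw [this, ff_apply, if_neg (by decide)]
      simp
  rw [h2] at h1
  exact h1

lemma Jr_nat_recip {r p : ℕ} (hr : Odd r) (hp : Odd p) :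
    Jr (r : ℤ) p = Jr (p : ℤ) r * x4 (decide (r % 4 = 3)) p := by
  unfold Jr x4
  have hr4 : r % 4 = 1 ∨ r % 4 = 3 := by
    rw [Nat.odd_iff] at hr; omega
  have hp4 : p % 4 = 1 ∨ p % 4 = 3 := by
    rw [Nat.odd_iff] at hp; omega
  rcases hr4 with h | h
  · rw [jacobiSym.quadratic_reciprocity_one_mod_four h hp]
    have : decide (r % 4 = 3) = false := by simp [h]
    rw [this]
    simp
  · have hd : decide (r % 4 = 3) = true := by simp [h]
    rw [hd, if_pos rfl]
    rcases hp4 with h' | h'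
    · rw [← jacobiSym.quadratic_reciprocity_one_mod_four h' hr]
      rw [ZMod.χ₄_nat_one_mod_four h']
      simp
    · rw [jacobiSym.quadratic_reciprocity_three_mod_four h h', ZMod.χ₄_nat_three_mod_four h']
      push_cast
      ring

/-- **the bound for a number that is not a square** -/
theorem nonsq_bound (κ : ℤ) (hκ : κ ≠ 0) (hns : ¬ IsSquare κ) (z : ℕ) (hz : κ.natAbs ≤ z)
    (hz2 : 2 ≤ z) : ∃ C : ℝ, ∀ y : ℕ, z < y → ∑ p ∈ PS z y, Jr κ p / (p : ℝ) ≤ C := by
  obtain ⟨a, b, hab, hsq⟩ := Nat.sq_mul_squarefree κ.natAbs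
  have hκ0 : 0 < κ.natAbs := Int.natAbs_pos.2 hκ
  have ha0 : a ≠ 0 := by rintro rfl; omega
  have hb0 : b ≠ 0 := by rintro rfl; simp at hab; omega
  -- the odd part
  obtain ⟨t, r, ht, hra, hr⟩ : ∃ t r : ℕ, (t = 1 ∨ t = 2) ∧ a = t * r ∧ Odd r := by
    rcases Nat.even_or_odd a with h | h
    · obtain ⟨r, hr⟩ := h
      refine ⟨2, r, Or.inr rfl, by omega, ?_⟩
      by_contra hne
      rw [Nat.not_odd_iff_even] at hne
      obtain ⟨k, hk⟩ := hne
      have h4 : 2 * 2 ∣ a := ⟨k, by omega⟩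
      have := hsq 2 h4
      rw [Nat.isUnit_iff] at this
      omega
    · exact ⟨1, a, Or.inl rfl, by omega, h⟩
  set κ' : ℤ := Int.sign κ * t with hκ'
  have hsgn : Int.sign κ = 1 ∨ Int.sign κ = -1 := by
    rcases lt_or_gt_of_ne hκ with h | h
    · right; exact Int.sign_eq_neg_one_of_neg h
    · left; exact Int.sign_eq_one_of_pos h
  have hκeq : κ = κ' * r * (b * b) := by
    have h1 : κ = Int.sign κ * κ.natAbs := (Int.sign_mul_natAbs κ).symm
    have h2 : (κ.natAbs : ℤ) = (b : ℤ) ^ 2 * (t * r) := by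
      rw [← hab, hra]; push_cast; ring
    rw [hκ']
    calc κ = Int.sign κ * κ.natAbs := h1
      _ = Int.sign κ * ((b : ℤ) ^ 2 * (t * r)) := by rw [h2]
      _ = _ := by ring
  have hκ'0 : κ' ≠ 0 := by
    intro h
    apply hκ
    rw [hκeq, h]; ring
  have hκ'2 : κ'.natAbs ≤ 2 := by
    rw [hκ', Int.natAbs_mul]
    rcases hsgn with h | h <;> rcases ht with h' | h' <;> rw [h, h'] <;> decide
  have hval : ∀ p : ℕ, p.Prime → z < p → Jr κ p =
      Jr (p : ℤ) r * Jr κ' p * x4 (decide (r % 4 = 3)) p := by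
    intro p hp hzp
    have hodd : Odd p := hp.odd_of_ne_two (by omega)
    have hbp : Int.gcd (b : ℤ) p = 1 := by
      rw [Int.gcd_natCast_natCast]
      have h1 : Nat.Coprime p b := (Nat.Prime.coprime_iff_not_dvd hp).2 fun h => by
        have h2 := Nat.le_of_dvd (Nat.pos_of_ne_zero hb0) h
        have h3 : b ≤ κ.natAbs := by
          rw [← hab]
          have : 1 ≤ a := Nat.pos_of_ne_zero ha0
          nlinarith [Nat.pos_of_ne_zero hb0]
        omega
      exact h1.symm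
    have h1 : Jr κ p = Jr κ' p * Jr (r : ℤ) p := by
      unfold Jr
      conv_lhs => rw [hκeq]
      rw [jacobiSym.mul_left, jacobiSym.mul_left, ← sq, jacobiSym.sq_one' hbp, mul_one]
      push_cast
      rfl
    rw [h1, Jr_nat_recip hr hodd]
    ring
  rcases Nat.lt_or_ge 1 r with hr1 | hr1
  · obtain ⟨C, hC⟩ := ub κ' 2 hκ'0 le_rfl hκ'2
    have hrsq : Squarefree r := by
      rw [hra] at hsq
      exact hsq.of_mul_right
    have h1 : ∀ y : ℕ, 2 < y → ∑ p ∈ PS 2 y,
        (Jr (p : ℤ) r * Jr κ' p * x4 (decide (r % 4 = 3)) p) / (p : ℝ) ≤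
        Real.log (Real.log r) + C := fun y hy => hC y r _ hy hr1 hrsq (by
      intro p hp hpr
      have := hp.two_le
      have h3 : p ≠ 2 := by
        rintro rfl
        rw [Nat.odd_iff] at hr
        omega
      omega)
    refine ⟨|Real.log (Real.log r) + C| + (2 : ℕ) + z + 2, fun y hy => ?_⟩
    have h2 := PS_shift (fun p => Jr (p : ℤ) r * Jr κ' p * x4 (decide (r % 4 = 3)) p) (by
      intro p
      rw [abs_mul, abs_mul]
      have h1 := Jr_abs (p : ℤ) r
      have h2 := Jr_abs κ' p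
      have h3 := x4_abs (decide (r % 4 = 3)) p
      calc |Jr (p : ℤ) r| * |Jr κ' p| * |x4 (decide (r % 4 = 3)) p| ≤ 1 * 1 * 1 := by gcongr
        _ = 1 := by norm_num) 2 z _ h1 y hy
    refine le_of_eq_of_le ?_ h2
    apply sum_congr rfl
    intro p hp
    simp only [PS, mem_filter, mem_Ioc] at hp
    rw [hval p hp.2 hp.1.1]
  · have hr0 : r = 1 := by
      have : r ≠ 0 := by rintro rfl; simp at hr
      omega
    have hk3 : κ' = -1 ∨ κ' = 2 ∨ κ' = -2 := by
      have hne1 : κ' ≠ 1 := by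
        intro h
        apply hns
        refine ⟨b, ?_⟩
        rw [hκeq, h, hr0]
        push_cast; ring
      rw [hκ'] at hne1 ⊢
      rcases hsgn with h | h <;> rcases ht with h' | h' <;> rw [h, h'] at hne1 ⊢ <;> simp at hne1 ⊢
    obtain ⟨C, hC⟩ := small_bound κ' hk3
    refine ⟨|C| + (2 : ℕ) + z + 2, fun y hy => ?_⟩
    have h2 := PS_shift (fun p => Jr κ' p) (fun p => Jr_abs κ' p) 2 z _ hC y hy
    refine le_of_eq_of_le ?_ h2
    apply sum_congr rfl
    intro p hp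
    simp only [PS, mem_filter, mem_Ioc] at hp
    rw [hval p hp.2 hp.1.1, hr0]
    simp [Jr, x4]

end Pool.Agent.V7H45.NS
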