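import Mathlib
import Pool.Agent.W307.RT.RAT4
import Pool.Agent.W655.RK.Full
import Pool.Agent.V7H45.NS

/-! MP_788af2_nt (helper45): the refined abstract bound (RAT of project RT) for several systems of
indices whose constants are not squares. -/

namespace Pool.Agent.V7H45.RM

open Finset Pool.Agent.W262.RK Pool.Agent.W262.RK.AT Pool.Agent.W307.RT

section

variable {ι : Type} [Fintype ι] [DecidableEq ι]

/-- a system: `N` are indices whose characters are not trivial, there are no symbols inside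
`N ∪ Q`, the weight of `Q` is at most `K` -/
structure Sys (w : ι → ℝ) (L : ι → ι → Bool) (K : ℝ) (N Q : Finset ι) : Prop where
  sym0 : ∀ i ∈ N ∪ Q, ∀ j ∈ N ∪ Q, L i j = false
  wt : ∑ i ∈ Q, w i ≤ K
  str : ∀ b, b ∉ N → b ∉ Q → ∑ i ∈ (N ∪ Q).filter (fun i => L i b = L b i), w i < K

/-- the bounds for sums of characters -/
structure CBm (κ : ι → ℤ) (z : ℕ) (C0 : ℝ) : Prop where
  z2 : 2 ≤ z
  c0 : 0 ≤ C0
  M : ∀ y, z < y → ∑ p ∈ PS z y, (1 : ℝ) / p ≤ Real.log (Real.log y) + C0
  X : ∀ i, ¬ IsSquare (κ i) → ∀ y, z < y → ∑ p ∈ PS z y, Jr (κ i) p / (p : ℝ) ≤ C0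
  U : ∀ i (y r : ℕ) (e : Bool), z < y → 1 < r → Squarefree r →
    (∀ p : ℕ, p.Prime → p ∣ r → z < p) →
    ∑ p ∈ PS z y, Jr p r * Jr (κ i) p * x4 e p / (p : ℝ) ≤ Real.log (Real.log r) + C0

/-- the trivial bound -/
lemma ch_triv' {κ : ι → ℤ} {z : ℕ} {C0 : ℝ} (hC : CBm κ z C0)
    (L : ι → ι → Bool) (e : ι → ℕ) (i : ι) {y : ℕ} (hy : z < y) :
    ∑ p ∈ PS z y, Ps L κ e i p / (p : ℝ) ≤ Real.log (Real.log y) + C0 := by
  refine le_trans ?_ (hC.M y hy)
  apply sum_le_sum
  intro p _
  apply div_le_div_of_nonneg_right _ (Nat.cast_nonneg p)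
  exact (abs_le.1 (abs_Ps_le L κ e i p)).2

/-- the characters of `N` when no other variable is linked to them -/
lemma CH1' {L : ι → ι → Bool} {κ : ι → ℤ} {N : Finset ι} {z : ℕ} {C0 : ℝ} (hC : CBm κ z C0)
    (hNs : ∀ n ∈ N, ¬ IsSquare (κ n))
    {ρ : ι → Fin 4} {y V Y : ℕ} (hy : z < y)
    (hN : ∀ n ∈ N, ∀ b, b ∉ N → ρ b ≠ 0 → b ∉ UU N ρ → L n b = false ∧ L b n = false)
    {G : ℝ} (hG : 0 ≤ Real.log G) :
    CH L κ z y (WW N ρ) (tN N z y V Y ρ)
      (fun i => C0 + if i ∈ UU N ρ then Real.log (Real.log y) else Real.log G) := by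
  intro e h1 h2 _ i hi
  by_cases hiU : i ∈ UU N ρ
  · refine ⟨fun p => Ps L κ e i p, abs_Ps_le L κ e i, fun p _ _ => rfl, ?_⟩
    have := ch_triv' hC L e i hy
    simp only
    rw [if_pos hiU]
    linarith
  · have hiN : i ∈ N := by
      rw [mem_WW] at hi
      rw [mem_UU] at hiU
      tauto
    refine ⟨fun p => Jr (κ i) p, fun p => abs_Jr_le _ _, fun p hp _ => ?_, ?_⟩
    · unfold Ps XX
      rw [prod_eq_one, one_mul]
      intro b _
      by_cases hbe : e b = 1
      · rw [hbe]
        have h4 : Jr ((1 : ℕ) : ℤ) p = 1 := by simp [Jr, jacobiSym.one_left]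
        rw [h4, Jr_one_right]
        simp
      · have hbW : b ∉ WW N ρ := fun h => hbe (h1 b h)
        have hb2 := h2 b hbW
        have hbN : b ∉ N := fun h => hbW (mem_WW.2 (Or.inl h))
        have hbU : b ∉ UU N ρ := fun h => hbW (mem_WW.2 (Or.inr (mem_UU.1 h).2))
        unfold tN at hb2
        rw [if_neg hbN] at hb2
        have hb0 : ρ b ≠ 0 := by
          intro h0
          rw [h0] at hb2
          exact hbe (cell_zero hb2)
        obtain ⟨a1, a2⟩ := hN i hiN b hbN hb0 hbU
        rw [a1, a2]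
        simp
    · simp only
      rw [if_neg hiU]
      have := hC.X i (hNs i hiN) y hy
      linarith

/-- the characters when there is a small variable -/
lemma CH2' {L : ι → ι → Bool} {κ : ι → ℤ} {N : Finset ι} {z : ℕ} {C0 : ℝ} (hC : CBm κ z C0)
    {ρ : ι → Fin 4} {y V Y : ℕ} (hy : z < y) (hV : 3 ≤ V) (h3 : ∀ b, b ∉ N → ρ b ≠ 3)
    {b0 : ι} (hb0 : b0 ∉ N) (hb1 : ρ b0 = 1) :
    CH L κ z y (WW N ρ) (tN N z y V Y ρ)
      (fun i => (C0 + Real.log (Fintype.card ι)) +
        if i ∈ univ.filter (fun i => L i b0 = L b0 i) then Real.log (Real.log y)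
        else Real.log (Real.log V)) := by
  intro e h1 h2 hcop i hi
  set M := Fintype.card ι with hM
  have hM1 : 1 ≤ M := Fintype.card_pos_iff.2 ⟨b0⟩
  have hlM : 0 ≤ Real.log M := Real.log_natCast_nonneg M
  by_cases hiP : i ∈ univ.filter (fun i => L i b0 = L b0 i)
  · refine ⟨fun p => Ps L κ e i p, abs_Ps_le L κ e i, fun p _ _ => rfl, ?_⟩
    have := ch_triv' hC L e i hy
    simp only
    rw [if_pos hiP]
    linarith
  · have hlink : L i b0 ≠ L b0 i := fun h => hiP (mem_filter.2 ⟨mem_univ i, h⟩)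
    have heD : ∀ b, e b ∈ (PP z y).divisors := by
      intro b
      by_cases hb : b ∈ WW N ρ
      · rw [h1 b hb]; exact one_mem_dv z y
      · exact tN_sub N z y V Y ρ b (h2 b hb)
    have heV : ∀ b, e b ≤ V := by
      intro b
      by_cases hb : b ∈ WW N ρ
      · rw [h1 b hb]; omega
      · have hb2 := h2 b hb
        rw [mem_WW, not_or] at hb
        unfold tN at hb2
        rw [if_neg hb.1] at hb2
        have h3b := h3 b hb.1
        have hcases : ρ b = 0 ∨ ρ b = 1 := by
          have h2b := hb.2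
          revert h2b h3b
          generalize ρ b = r
          revert r
          decide
        rcases hcases with h0 | h0
        · rw [h0] at hb2
          have := cell_zero hb2
          omega
        · rw [h0] at hb2
          exact (cell_one hb2).2
    have hb0W : b0 ∉ WW N ρ := by
      rw [mem_WW, not_or]
      refine ⟨hb0, ?_⟩
      rw [hb1]
      decide
    have he0 : 1 < e b0 := by
      have := h2 b0 hb0W
      unfold tN at this
      rw [if_neg hb0, hb1] at this
      exact (cell_one this).1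
    have hne : b0 ≠ i := by
      rintro rfl
      exact hlink rfl
    have hmem : b0 ∈ (univ.erase i).filter (fun b => L i b ≠ L b i) :=
      mem_filter.2 ⟨mem_erase.2 ⟨hne, mem_univ _⟩, hlink⟩
    have hr1 : 1 < lk L i e := by
      unfold lk
      rw [← mul_prod_erase _ _ hmem]
      have : 0 < ∏ b ∈ ((univ.erase i).filter (fun b => L i b ≠ L b i)).erase b0, e b :=
        prod_pos fun b _ => dv_pos (heD b)
      nlinarith
    have hr2 : lk L i e ≤ V ^ M := by
      unfold lk
      calc ∏ b ∈ (univ.erase i).filter (fun b => L i b ≠ L b i), e b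
          ≤ ∏ b ∈ (univ.erase i).filter (fun b => L i b ≠ L b i), V :=
            prod_le_prod' fun b _ => heV b
        _ = V ^ ((univ.erase i).filter (fun b => L i b ≠ L b i)).card := by rw [prod_const]
        _ ≤ V ^ M := Nat.pow_le_pow_right (by omega)
            ((card_le_card (subset_univ _)).trans (le_of_eq card_univ))
    have hsq : Squarefree (lk L i e) := by
      unfold lk
      apply squarefree_prod
      · intro b _
        exact dv_squarefree (heD b)
      · intro a _ b _ hab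
        exact hcop a b hab
    obtain ⟨s, hs⟩ := XX_char L i e (fun b => dv_odd hC.z2 (heD b))
    refine ⟨fun p => Jr p (lk L i e) * Jr (κ i) p * x4 s p, fun p => ?_, fun p hp hpe => ?_, ?_⟩
    · rw [abs_mul, abs_mul]
      exact mul_le_one₀ (mul_le_one₀ (abs_Jr_le _ _) (abs_nonneg _) (abs_Jr_le _ _))
        (abs_nonneg _) (abs_x4_le _ _)
    · have hp' := (mem_PS.1 hp)
      have hpodd : Odd p := by
        apply hp'.2.odd_of_ne_two
        have := hC.z2
        omega
      unfold Ps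
      rw [hs p hpodd fun b _ => (Nat.Prime.coprime_iff_not_dvd hp'.2).2 (hpe b)]
      ring
    · simp only
      rw [if_neg hiP]
      refine (hC.U i y (lk L i e) s hy hr1 hsq fun p hp hpr => lk_primes heD hp hpr).trans ?_
      have hlr : 0 < Real.log (lk L i e) := Real.log_pos (by exact_mod_cast hr1)
      have hlV : 0 < Real.log V := Real.log_pos (by exact_mod_cast (by omega : 1 < V))
      have a1 : Real.log (lk L i e) ≤ M * Real.log V := by
        rw [← Real.log_pow]
        apply Real.log_le_log (by exact_mod_cast (by omega : 0 < lk L i e))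
        exact_mod_cast hr2
      have a2 : Real.log (Real.log (lk L i e)) ≤ Real.log M + Real.log (Real.log V) := by
        rw [← Real.log_mul (by exact_mod_cast (by omega : M ≠ 0)) hlV.ne']
        exact Real.log_le_log hlr a1
      linarith

/-- a pattern whose large variables are contained only in sets of weight at most `K` -/
lemma pat3 {w : ι → ℝ} {L : ι → ι → Bool} {κ : ι → ℤ} {c z : ℕ} {C : ℝ} (hB : Bd w κ c z C)
    {C2 : ℝ} {E2 : ℕ} (hC2 : 0 ≤ C2) (h2 : BW C2 E2) (hL : ∀ i, L i i = false) {K : ℝ}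
    (hK0 : 0 ≤ K) (π : ι → Fin 4) (hK : ∀ U : Finset ι, (∀ i ∈ U, ∀ j ∈ U, L i j = L j i) →
      univ.filter (fun k => π k = 2) ⊆ U → ∑ i ∈ U, w i ≤ K) : ∃ C' : ℝ, ∀ y, z < y →
      |∑ d ∈ Fintype.piFinset (fun b => cell z y (VV (6 * (Fintype.card ι + 2 * E2)) (Real.log y))
        (YY (6 * (Fintype.card ι + 2 * E2)) (Real.log y)) (π b)), HH w L κ c d| ≤
        C' * (Real.log y) ^ K := by
  by_cases h3 : ∃ k, π k = 3
  · obtain ⟨k, hk⟩ := h3
    exact tail_case hB _ hK0 π hk
  push Not at h3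
  by_cases hl : ∃ i j, π i = 2 ∧ π j = 2 ∧ L i j ≠ L j i
  · obtain ⟨i, j, hi, hj, hij⟩ := hl
    exact link_case hB hC2 h2 hL le_rfl hK0 π hi hj hij
  push Not at hl
  have hS : ∑ k ∈ univ.filter (fun k => π k = 2), w k ≤ K := by
    apply hK _ _ (Subset.refl _)
    intro i hi j hj
    exact hl i j (mem_filter.1 hi).2 (mem_filter.1 hj).2
  rcases hS.lt_or_eq with hlt | heq
  · exact triv_case hB _ π h3 hlt
  by_cases h1 : ∃ j, π j = 1
  · obtain ⟨j, hj⟩ := h1
    have hex : ∃ i, π i = 2 ∧ L i j ≠ L j i := by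
      by_contra hcon
      push Not at hcon
      have hjn : j ∉ univ.filter (fun k => π k = 2) := by
        rw [mem_filter, hj]
        rintro ⟨-, h⟩
        exact absurd h (by decide)
      have := hK (insert j (univ.filter (fun k => π k = 2))) (by
        intro a ha b hb
        rw [mem_insert] at ha hb
        rcases ha with rfl | ha
        · rcases hb with rfl | hb
          · rfl
          · exact (hcon b (mem_filter.1 hb).2).symm
        · rcases hb with rfl | hb
          · exact hcon a (mem_filter.1 ha).2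
          · exact hl a b (mem_filter.1 ha).2 (mem_filter.1 hb).2) (subset_insert _ _)
      rw [sum_insert hjn, heq] at this
      have := hB.w0 j
      linarith
    obtain ⟨i, hi, hij⟩ := hex
    exact max_case hB hL _ π h3 hi hj hij (fun k hk => hl i k hi hk) hS
  · push Not at h1
    refine diag_case hB _ π (fun k => ?_) hS
    have a1 := h1 k
    have a3 := h3 k
    revert a1 a3
    generalize π k = r
    revert r
    decide

/-- the final estimate when there is some room in the exponent -/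
lemma fin_lt' {w : ι → ℝ} {L : ι → ι → Bool} {κ : ι → ℤ} {c z : ℕ} {K S C1 : ℝ} (hz : 2 ≤ z)
    (A M : ℕ) (hSK : S < K) (hC1 : 0 ≤ C1) (t : ℕ → ι → Finset ℕ)
    (h : ∀ y, z < y → |∑ d ∈ Fintype.piFinset (t y), HH w L κ c d| ≤
      C1 * (Real.log y) ^ S * (Real.log (VV A (Real.log y))) ^ M) :
    ∃ C' : ℝ, ∀ y, z < y → |∑ d ∈ Fintype.piFinset (t y), HH w L κ c d| ≤
      C' * (Real.log y) ^ K := by
  obtain ⟨C3, hC3, h3⟩ := log_VV_pow_le A M (sub_pos.2 hSK)
  refine ⟨C1 * C3, fun y hy => (h y hy).trans ?_⟩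
  have hly := one_le_log hz hy
  have hl0 : 0 < Real.log y := by linarith
  calc C1 * (Real.log y) ^ S * (Real.log (VV A (Real.log y))) ^ M
      ≤ C1 * (Real.log y) ^ S * (C3 * (Real.log y) ^ (K - S)) :=
        mul_le_mul_of_nonneg_left (h3 _ hly) (by positivity)
    _ = C1 * C3 * ((Real.log y) ^ S * (Real.log y) ^ (K - S)) := by ring
    _ = _ := by rw [← Real.rpow_add hl0]; congr 2; ring

/-- one pattern of a system -/
lemma pat_sys {w : ι → ℝ} {L : ι → ι → Bool} {κ : ι → ℤ} {c z A : ℕ} {K C C1 Cs C0 : ℝ}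
    {N Q : Finset ι} (hBd : Bd w κ c z C) (hFB : FB w (c + A) z C1) (hCs : 0 ≤ Cs)
    (hFs : FS w c z A Cs) (hCB : CBm κ z C0) (hNs : ∀ n ∈ N, ¬ IsSquare (κ n)) (hK0 : 0 ≤ K)
    (hS : Sys w L K N Q) (A' : ℕ) (ρ : ι → Fin 4)
    (hρ : ∀ b, b ∉ N → b ∉ Q → ρ b = 0 ∨ ρ b = 1) :
    ∃ C' : ℝ, ∀ y, z < y →
      |∑ d ∈ Fintype.piFinset (tN N z y (VV A' (Real.log y)) (YY A' (Real.log y)) ρ),
        HH w L κ c d| ≤ C' * (Real.log y) ^ K := by
  classical
  by_cases hA : ∃ k, k ∉ N ∧ ρ k = 3
  · obtain ⟨k, hk1, hk2⟩ := hA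
    exact refine_pat A' N ρ fun π hπ => tail_case hBd _ hK0 π (k := k) (by rw [hπ k hk1, hk2])
  push Not at hA
  have hUQ : ∀ b ∈ UU N ρ, b ∈ Q := by
    intro b hb
    rw [mem_UU] at hb
    by_contra hbQ
    rcases hρ b hb.1 hbQ with h | h <;> rw [h] at hb <;> exact absurd hb.2 (by decide)
  have hWQ : ∀ b ∈ WW N ρ, b ∈ N ∪ Q := by
    intro b hb
    rw [mem_union]
    by_cases hbN : b ∈ N
    · exact Or.inl hbN
    · right
      apply hUQ
      rw [mem_UU]
      rw [mem_WW] at hb
      tauto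
  have hW : ∀ i ∈ WW N ρ, ∀ j ∈ WW N ρ, L i j = false := fun i hi j hj =>
    hS.sym0 i (hWQ i hi) j (hWQ j hj)
  have hz2 := hBd.z2
  by_cases h1 : ∃ b, b ∉ N ∧ ρ b = 1 ∧ b ∉ Q
  · obtain ⟨b0, hb0, hb1, hbQ⟩ := h1
    have hM : 0 ≤ Real.log (Fintype.card ι) := Real.log_natCast_nonneg _
    obtain ⟨C', hC'0, hC'⟩ := main_est (κ := κ) hFB hCs hFs N ρ (fun b hb => hA b hb) hW A'
      (C0 := C0 + Real.log (Fintype.card ι)) (by have := hCB.c0; linarith)
      (univ.filter (fun i => L i b0 = L b0 i))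
    have hlt : ∑ i ∈ (WW N ρ).filter (fun i => i ∈ univ.filter (fun i => L i b0 = L b0 i)), w i
        < K := by
      refine lt_of_le_of_lt ?_ (hS.str b0 hb0 hbQ)
      apply sum_le_sum_of_subset_of_nonneg
      · intro i hi
        rw [mem_filter] at hi ⊢
        exact ⟨hWQ i hi.1, (mem_filter.1 hi.2).2⟩
      · intro i _ _
        exact (hBd.w0 i).le
    apply fin_lt' hz2 A' (2 * Fintype.card ι) hlt hC'0
      (fun y => tN N z y (VV A' (Real.log y)) (YY A' (Real.log y)) ρ)
    intro y hy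
    exact hC' y hy (Real.log (VV A' (Real.log y))) (Or.inl rfl)
      (CH2' hCB hy (three_le_VV _ _) (fun b hb => hA b hb) hb0 hb1)
  push Not at h1
  have hNh : ∀ n ∈ N, ∀ b, b ∉ N → ρ b ≠ 0 → b ∉ UU N ρ → L n b = false ∧ L b n = false := by
    intro n hn b hbN hb0 hbU
    have hb3 := hA b hbN
    have hb2 : ρ b ≠ 2 := fun h => hbU (mem_UU.2 ⟨hbN, h⟩)
    have hb1 : ρ b = 1 := by
      revert hb0 hb2 hb3
      generalize ρ b = r
      revert r
      decide
    have hbQ := h1 b hbN hb1
    exact ⟨hS.sym0 n (mem_union_left _ hn) b (mem_union_right _ hbQ),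
      hS.sym0 b (mem_union_right _ hbQ) n (mem_union_left _ hn)⟩
  obtain ⟨C', hC'0, hC'⟩ := main_est (κ := κ) hFB hCs hFs N ρ (fun b hb => hA b hb) hW A'
    hCB.c0 (UU N ρ)
  have hfil : (WW N ρ).filter (fun i => i ∈ UU N ρ) ⊆ Q := by
    intro i hi
    exact hUQ i (mem_filter.1 hi).2
  by_cases h0 : ∃ b, b ∉ N ∧ ρ b = 1
  · obtain ⟨b0, hb0, hb1⟩ := h0
    have hbQ := h1 b0 hb0 hb1
    have hlt : ∑ i ∈ (WW N ρ).filter (fun i => i ∈ UU N ρ), w i < K := by
      have e1 : ∑ i ∈ (WW N ρ).filter (fun i => i ∈ UU N ρ), w i ≤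
          ∑ i ∈ Q.erase b0, w i := by
        apply sum_le_sum_of_subset_of_nonneg
        · intro i hi
          rw [mem_erase]
          refine ⟨?_, hfil hi⟩
          rintro rfl
          have := (mem_UU.1 (mem_filter.1 hi).2).2
          rw [hb1] at this
          exact absurd this (by decide)
        · intro i _ _
          exact (hBd.w0 i).le
      have e2 := add_sum_erase Q w hbQ
      have e3 := hBd.w0 b0
      have e4 := hS.wt
      linarith
    apply fin_lt' hz2 A' (2 * Fintype.card ι) hlt hC'0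
      (fun y => tN N z y (VV A' (Real.log y)) (YY A' (Real.log y)) ρ)
    intro y hy
    exact hC' y hy (Real.log (VV A' (Real.log y))) (Or.inl rfl)
      (CH1' hCB hNs hy hNh (Real.log_nonneg (one_le_log_VV _ _)))
  · push Not at h0
    refine ⟨C', fun y hy => ?_⟩
    have h4 := hC' y hy 1 (Or.inr ⟨rfl, Subset.refl _, h0⟩)
      (CH1' hCB hNs hy hNh (by rw [Real.log_one]))
    have hly := one_le_log hz2 hy
    rw [one_pow, mul_one] at h4
    refine h4.trans ?_
    apply mul_le_mul_of_nonneg_left _ hC'0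
    apply Real.rpow_le_rpow_of_exponent_le hly
    refine le_trans ?_ hS.wt
    exact sum_le_sum_of_subset_of_nonneg hfil fun i _ _ => (hBd.w0 i).le

/-- the pattern is of the kind of the system -/
def EE (N Q : Finset ι) (π : ι → Fin 4) : Prop := ∀ b, b ∉ N → b ∉ Q → π b = 0 ∨ π b = 1

omit [Fintype ι] [DecidableEq ι] in
lemma EE_congr {N Q : Finset ι} {π ρ : ι → Fin 4} (h : ∀ b, b ∉ N → π b = ρ b) :
    EE N Q π ↔ EE N Q ρ := by
  unfold EE
  constructor
  · intro h1 b hb hb2
    rw [← h b hb]; exact h1 b hb hb2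
  · intro h1 b hb hb2
    rw [h b hb]; exact h1 b hb hb2

/-- the contribution of a system -/
lemma sys_sum {w : ι → ℝ} {L : ι → ι → Bool} {κ : ι → ℤ} {c z A : ℕ} {K C C1 Cs C0 : ℝ}
    {N Q : Finset ι} (hBd : Bd w κ c z C) (hFB : FB w (c + A) z C1) (hCs : 0 ≤ Cs)
    (hFs : FS w c z A Cs) (hCB : CBm κ z C0) (hNs : ∀ n ∈ N, ¬ IsSquare (κ n)) (hK0 : 0 ≤ K)
    (hS : Sys w L K N Q) (A' : ℕ) :
    ∃ C' : ℝ, ∀ y, z < y → ∀ V Y : ℕ, V = VV A' (Real.log y) → Y = YY A' (Real.log y) →
      ∀ F : (ι → ℕ) → ℝ, (∀ d, EE N Q (fun k => cl V Y (d k)) → F d = HH w L κ c d) →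
      (∀ d, ¬ EE N Q (fun k => cl V Y (d k)) → F d = 0) →
      |∑ d ∈ Fintype.piFinset (fun _ : ι => (PP z y).divisors), F d| ≤
        C' * (Real.log y) ^ K := by
  classical
  have h1 : ∀ ρ : ι → Fin 4, ∃ C' : ℝ, ∀ y, z < y → EE N Q ρ →
      |∑ d ∈ Fintype.piFinset (tN N z y (VV A' (Real.log y)) (YY A' (Real.log y)) ρ),
        HH w L κ c d| ≤ C' * (Real.log y) ^ K := by
    intro ρ
    by_cases hE : EE N Q ρ
    · obtain ⟨C', hC'⟩ := pat_sys hBd hFB hCs hFs hCB hNs hK0 hS A' ρ hE
      exact ⟨C', fun y hy _ => hC' y hy⟩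
    · exact ⟨0, fun y _ h => absurd h hE⟩
  choose C' hC' using h1
  refine ⟨∑ ρ ∈ univ.filter (fun ρ : ι → Fin 4 => ∀ n ∈ N, ρ n = 0), |C' ρ|,
    fun y hy V Y hV hY F hF1 hF0 => ?_⟩
  have hly := one_le_log hBd.z2 hy
  have hl0 : 0 ≤ (Real.log y) ^ K := Real.rpow_nonneg (by linarith) _
  rw [patternsN N z y V Y, sum_mul]
  refine (abs_sum_le_sum_abs _ _).trans (sum_le_sum fun ρ hρ => ?_)
  have hkd : ∀ d ∈ Fintype.piFinset (tN N z y V Y ρ), ∀ b, b ∉ N →
      cl V Y (d b) = ρ b := by
    intro d hd b hb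
    have := Fintype.mem_piFinset.1 hd b
    unfold tN at this
    rw [if_neg hb] at this
    exact (mem_filter.1 this).2
  by_cases hE : EE N Q ρ
  · have e1 : ∑ d ∈ Fintype.piFinset (tN N z y V Y ρ), F d =
        ∑ d ∈ Fintype.piFinset (tN N z y V Y ρ), HH w L κ c d := by
      apply sum_congr rfl
      intro d hd
      exact hF1 d ((EE_congr (fun b hb => hkd d hd b hb)).2 hE)
    rw [e1, hV, hY]
    refine (hC' ρ y hy hE).trans ?_
    exact mul_le_mul_of_nonneg_right (le_abs_self _) hl0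
  · have e1 : ∑ d ∈ Fintype.piFinset (tN N z y V Y ρ), F d = 0 := by
      apply sum_eq_zero
      intro d hd
      exact hF0 d (fun h => hE ((EE_congr (fun b hb => hkd d hd b hb)).1 h))
    rw [e1, abs_zero]
    positivity

end

/-- **The refined abstract bound for several systems** -/
theorem ratm_of (hb : BLW) (he : EP) (hf : FULL) (hub : UB) (hfs : FSB)
    {ι : Type} [Fintype ι] [DecidableEq ι] {σ : Type} [Fintype σ] [DecidableEq σ]
    (w : ι → ℝ) (L : ι → ι → Bool) (κ : ι → ℤ) (c : ℕ) (K : ℝ) (N Q : σ → Finset ι)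
    (hw : ∀ i, 0 < w i ∧ w i ≤ 1 / 2) (hL : ∀ i, L i i = false) (hκ : ∀ i, κ i ≠ 0)
    (hNs : ∀ s, ∀ n ∈ N s, ¬ IsSquare (κ n)) (hK0 : 0 ≤ K) (hS : ∀ s, Sys w L K (N s) (Q s))
    (hU : ∀ U : Finset ι, (∀ i ∈ U, ∀ j ∈ U, L i j = L j i) → (∀ s, ¬ U ⊆ N s ∪ Q s) →
      ∑ i ∈ U, w i ≤ K)
    (hI : ∀ s t, s ≠ t → ∑ i ∈ (N s ∪ Q s) ∩ (N t ∪ Q t), w i < K) :
    ∃ z0 : ℕ, ∀ z, z0 ≤ z → ∃ C : ℝ, ∀ y, z < y →
      |∑ d ∈ Tup ι z y, (∏ i, gw (w i) c (d i)) * Sym L κ d| ≤ C * (Real.log y) ^ K := by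
  classical
  obtain ⟨C2, E2, h2⟩ := hb
  obtain ⟨zS, A, hFS⟩ := hfs ι w c hw
  choose zE hE using fun i => he (w i) c (κ i) (hw i).1 (hw i).2 (hκ i)
  choose zF hF using fun i => hf (w i) c (hw i).1 (hw i).2
  choose zG hG using fun i => hf (w i) (c + A) (hw i).1 (hw i).2
  obtain ⟨CM, hCM0, hCM⟩ := Pool.Agent.W655.RK.mertens
  refine ⟨zS + univ.sup zE + univ.sup zF + univ.sup zG + 2 * c + A + 2 + ∑ i, (κ i).natAbs,
    fun z hz => ?_⟩
  have hzE : ∀ i, zE i ≤ z := fun i => (le_sup (f := zE) (mem_univ i)).trans (by omega)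
  have hzF : ∀ i, zF i ≤ z := fun i => (le_sup (f := zF) (mem_univ i)).trans (by omega)
  have hzG : ∀ i, zG i ≤ z := fun i => (le_sup (f := zG) (mem_univ i)).trans (by omega)
  have hzκ : ∀ i, (κ i).natAbs ≤ z := fun i => by
    have := single_le_sum (f := fun i => (κ i).natAbs) (fun _ _ => Nat.zero_le _) (mem_univ i)
    omega
  have hX : ∀ i, ∃ C : ℝ, ¬ IsSquare (κ i) → ∀ y : ℕ, z < y →
      ∑ p ∈ PS z y, Jr (κ i) p / (p : ℝ) ≤ C := by
    intro i
    by_cases hs : IsSquare (κ i)
    · exact ⟨0, fun h => absurd hs h⟩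
    · obtain ⟨C, hC⟩ := NS.nonsq_bound (κ i) (hκ i) hs z (hzκ i) (by omega)
      exact ⟨C, fun _ => hC⟩
  choose CE hCE using fun i => hE i z (hzE i)
  choose CF hCF1 hCF2 hCF3 using fun i => hF i z (hzF i)
  choose CG hCG1 hCG2 hCG3 using fun i => hG i z (hzG i)
  choose CU hCU using fun i => hub (κ i) z (hκ i) (by omega) (hzκ i)
  choose CX hCX using hX
  obtain ⟨Cs, hCs1, hFs⟩ := hFS z (by omega)
  set C : ℝ := 1 + ∑ i, (|CE i| + |CF i| + |CG i| + |CU i| + |CX i|) with hC
  have hCi : ∀ i, |CE i| + |CF i| + |CG i| + |CU i| + |CX i| ≤ C := by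
    intro i
    have h1 : |CE i| + |CF i| + |CG i| + |CU i| + |CX i| ≤
        ∑ i, (|CE i| + |CF i| + |CG i| + |CU i| + |CX i|) :=
      single_le_sum (f := fun i => |CE i| + |CF i| + |CG i| + |CU i| + |CX i|)
        (fun j _ => by positivity) (mem_univ i)
    linarith
  have hCE' : ∀ i, CE i ≤ C := fun i => by
    have := le_abs_self (CE i)
    have := abs_nonneg (CF i)
    have := abs_nonneg (CG i)
    have := abs_nonneg (CU i)
    have := abs_nonneg (CX i)
    linarith [hCi i]
  have hCF' : ∀ i, CF i ≤ C := fun i => by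
    have := le_abs_self (CF i)
    have := abs_nonneg (CE i)
    have := abs_nonneg (CG i)
    have := abs_nonneg (CU i)
    have := abs_nonneg (CX i)
    linarith [hCi i]
  have hCG' : ∀ i, CG i ≤ C := fun i => by
    have := le_abs_self (CG i)
    have := abs_nonneg (CE i)
    have := abs_nonneg (CF i)
    have := abs_nonneg (CU i)
    have := abs_nonneg (CX i)
    linarith [hCi i]
  have hCU' : ∀ i, CU i ≤ C := fun i => by
    have := le_abs_self (CU i)
    have := abs_nonneg (CE i)
    have := abs_nonneg (CF i)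
    have := abs_nonneg (CG i)
    have := abs_nonneg (CX i)
    linarith [hCi i]
  have hCX' : ∀ i, CX i ≤ C := fun i => by
    have := le_abs_self (CX i)
    have := abs_nonneg (CE i)
    have := abs_nonneg (CF i)
    have := abs_nonneg (CG i)
    have := abs_nonneg (CU i)
    linarith [hCi i]
  have hC1 : 1 ≤ C := by
    rw [hC]
    have : 0 ≤ ∑ i, (|CE i| + |CF i| + |CG i| + |CU i| + |CX i|) :=
      sum_nonneg fun i _ => by positivity
    linarith
  have hBd : AT.Bd w κ c z C :=
    { w0 := fun i => (hw i).1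
      w1 := fun i => (hw i).2
      z2 := by omega
      zc := by omega
      C1 := hC1
      F1 := fun i y hy => (hCF1 i y hy).trans (mul_le_mul_of_nonneg_right (hCF' i)
        (Real.rpow_nonneg (Real.log_natCast_nonneg y) _))
      F2 := fun i y V hy hV => (hCF2 i y V hy hV).trans (mul_le_mul_of_nonneg_right (hCF' i)
        (Real.rpow_nonneg (Real.log_natCast_nonneg V) _))
      F3 := fun i y Y hy hY => (hCF3 i y Y hy hY).trans (by
        apply mul_le_mul_of_nonneg_right _ (by positivity)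
        exact mul_le_mul_of_nonneg_right (hCF' i) (Real.exp_pos _).le)
      E := fun i y R r e hy hR hr hs hp => (hCE i y R r e hy hR hr hs hp).trans (by
        apply mul_le_mul_of_nonneg_right _ (hh_nonneg _)
        exact mul_le_mul_of_nonneg_right (hCE' i)
          (Real.rpow_nonneg (Real.log_natCast_nonneg r) _)) }
  have hFB : FB w (c + A) z C :=
    { w0 := fun i => (hw i).1
      w1 := fun i => (hw i).2
      z2 := by omega
      zc := by omega
      C1 := hC1
      F2 := fun i y V hy hV => (hCG2 i y V hy hV).trans (mul_le_mul_of_nonneg_right (hCG' i)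
        (Real.rpow_nonneg (Real.log_natCast_nonneg V) _))
      F3 := fun i y Y hy hY => (hCG3 i y Y hy hY).trans (by
        apply mul_le_mul_of_nonneg_right _ (by positivity)
        exact mul_le_mul_of_nonneg_right (hCG' i) (Real.exp_pos _).le) }
  have hCB : CBm κ z (C + CM) :=
    { z2 := by omega
      c0 := by positivity
      M := fun y hy => (hCM z y (by omega)).trans (by linarith)
      X := fun i hi y hy => (hCX i hi y hy).trans (by
        have := hCX' i
        linarith)
      U := fun i y r e hy hr hs hp => (hCU i y r e hy hr hs hp).trans (by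
        have := hCU' i
        linarith) }
  have h2' : AT.BW |C2| E2 := fun V Y hV hVY a b ha hb ha' hb' =>
    (h2 V Y hV hVY a b ha hb ha' hb').trans (by
      apply mul_le_mul_of_nonneg_right _ (by positivity)
      exact mul_le_mul_of_nonneg_right (le_abs_self C2)
        (pow_nonneg (Real.log_natCast_nonneg Y) _))
  set A' := 6 * (Fintype.card ι + 2 * E2) with hA'
  -- the contributions of the systems
  choose C' hC' using fun s : σ => sys_sum hBd hFB (zero_le_one.trans hCs1) hFs hCB (hNs s) hK0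
    (hS s) A'
  -- the contributions of the patterns that are in no system, or in several systems
  set mm : (ι → Fin 4) → ℕ := fun π => (univ.filter (fun s : σ => EE (N s) (Q s) π)).card with hmm
  have hpat : ∀ π : ι → Fin 4, ∃ C3 : ℝ, ∀ y, z < y → mm π ≠ 1 →
      |∑ d ∈ Fintype.piFinset (fun b => cell z y (VV A' (Real.log y)) (YY A' (Real.log y)) (π b)),
        HH w L κ c d| ≤ C3 * (Real.log y) ^ K := by
    intro π
    by_cases hm1 : mm π = 1
    · exact ⟨0, fun y _ h => absurd hm1 h⟩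
    by_cases h3 : ∃ k, π k = 3
    · obtain ⟨k, hk⟩ := h3
      obtain ⟨C3, hC3⟩ := tail_case hBd A' hK0 π hk
      exact ⟨C3, fun y hy _ => hC3 y hy⟩
    push Not at h3
    have hEsub : ∀ s, EE (N s) (Q s) π → univ.filter (fun k => π k = 2) ⊆ N s ∪ Q s := by
      intro s hs k hk
      rw [mem_filter] at hk
      by_contra hn
      rw [mem_union, not_or] at hn
      rcases hs k hn.1 hn.2 with h | h <;> rw [h] at hk <;> exact absurd hk.2 (by decide)
    rcases Nat.lt_or_ge 1 (mm π) with hm | hm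
    · obtain ⟨s, hs, t, ht, hst⟩ := one_lt_card.1 hm
      rw [mem_filter] at hs ht
      obtain ⟨C3, hC3⟩ := triv_case hBd A' (K := K) π h3 (by
        refine lt_of_le_of_lt ?_ (hI s t hst)
        apply sum_le_sum_of_subset_of_nonneg
        · intro k hk
          rw [mem_inter]
          exact ⟨hEsub s hs.2 hk, hEsub t ht.2 hk⟩
        · intro k _ _
          exact (hBd.w0 k).le)
      exact ⟨C3, fun y hy _ => hC3 y hy⟩
    · have hm0 : mm π = 0 := by omega
      rw [hmm] at hm0
      simp only at hm0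
      rw [card_eq_zero, filter_eq_empty_iff] at hm0
      obtain ⟨C3, hC3⟩ := pat3 hBd (abs_nonneg C2) h2' hL hK0 π (by
        intro U hUu hsub
        apply hU U hUu
        intro s hs
        apply hm0 (mem_univ s)
        intro b hb1 hb2
        have hb3 := h3 b
        have hb4 : π b ≠ 2 := by
          intro h
          have := hs (hsub (mem_filter.2 ⟨mem_univ b, h⟩))
          rw [mem_union] at this
          tauto
        revert hb3 hb4
        generalize π b = r
        revert r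
        decide)
      exact ⟨C3, fun y hy _ => hC3 y hy⟩
  choose C3 hC3 using hpat
  refine ⟨∑ s, C' s + ∑ π : ι → Fin 4, (Fintype.card σ + 1) * |C3 π|, fun y hy => ?_⟩
  have hly := one_le_log (by omega : 2 ≤ z) hy
  have hl0 : 0 ≤ (Real.log y) ^ K := Real.rpow_nonneg (by linarith) _
  rw [AT.total_eq]
  set V := VV A' (Real.log y) with hV
  set Y := YY A' (Real.log y) with hY
  have hsplit : ∑ d ∈ Fintype.piFinset (fun _ : ι => (PP z y).divisors), HH w L κ c d =
      (∑ s : σ, ∑ d ∈ Fintype.piFinset (fun _ : ι => (PP z y).divisors),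
        (if EE (N s) (Q s) (fun k => cl V Y (d k)) then HH w L κ c d else 0)) +
      ∑ d ∈ Fintype.piFinset (fun _ : ι => (PP z y).divisors),
        (1 - (mm (fun k => cl V Y (d k)) : ℝ)) * HH w L κ c d := by
    rw [sum_comm, ← sum_add_distrib]
    apply sum_congr rfl
    intro d _
    rw [← sum_filter, sum_const, nsmul_eq_mul, hmm]
    ring
  rw [hsplit, add_mul]
  refine (abs_add_le _ _).trans (add_le_add ?_ ?_)
  · rw [sum_mul]
    refine (abs_sum_le_sum_abs _ _).trans (sum_le_sum fun s _ => ?_)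
    exact hC' s y hy V Y hV hY _ (fun d hd => if_pos hd) (fun d hd => if_neg hd)
  · rw [AT.patterns z y V Y, sum_mul]
    refine (abs_sum_le_sum_abs _ _).trans (sum_le_sum fun π _ => ?_)
    have e1 : ∑ d ∈ Fintype.piFinset (fun k => cell z y V Y (π k)),
        (1 - (mm (fun k => cl V Y (d k)) : ℝ)) * HH w L κ c d =
        (1 - (mm π : ℝ)) * ∑ d ∈ Fintype.piFinset (fun k => cell z y V Y (π k)),
          HH w L κ c d := by
      rw [mul_sum]
      apply sum_congr rfl
      intro d hd
      have : (fun k => cl V Y (d k)) = π := by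
        funext k
        exact (mem_filter.1 (Fintype.mem_piFinset.1 hd k)).2
      rw [this]
    rw [e1, abs_mul]
    by_cases hm1 : mm π = 1
    · rw [hm1]
      simp only [Nat.cast_one, sub_self, abs_zero, zero_mul]
      positivity
    · have e2 := hC3 π y hy hm1
      have e3 : |1 - (mm π : ℝ)| ≤ Fintype.card σ + 1 := by
        have h1 : (mm π : ℝ) ≤ Fintype.card σ := by
          have : mm π ≤ Fintype.card σ := by
            rw [hmm]
            exact card_le_univ _
          exact_mod_cast this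
        have h0 : (0 : ℝ) ≤ mm π := Nat.cast_nonneg _
        rw [abs_le]
        constructor <;> linarith
      have e4 : C3 π * (Real.log y) ^ K ≤ |C3 π| * (Real.log y) ^ K :=
        mul_le_mul_of_nonneg_right (le_abs_self _) hl0
      calc |1 - (mm π : ℝ)| * |∑ d ∈ Fintype.piFinset (fun k => cell z y V Y (π k)),
            HH w L κ c d| ≤ (Fintype.card σ + 1) * (|C3 π| * (Real.log y) ^ K) :=
            mul_le_mul e3 (e2.trans e4) (abs_nonneg _) (by positivity)
        _ = _ := by ring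

end Pool.Agent.V7H45.RM
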