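import Mathlib
import Pool.Agent.W307.RT.NB4
import Pool.Agent.V7H45.RM

/-! MP_788af2_nt (helper45): the average of the local count for classes of different sizes. -/

namespace Pool.Agent.V7H45.CL

open Finset Pool.Agent.W262.RK Pool.Agent.V7H45.RM

variable {J : Type} [Fintype J] [DecidableEq J]

/-- index, is it chosen, has it a symbol? -/
abbrev X (J : Type) : Type := J × Bool × Bool

/-- the symbols -/
def LX (cls : J → Fin 4) (x y : X J) : Bool := decide (cls x.1 ≠ cls y.1) && x.2.1 && y.2.2

/-- the type -/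
def ty {cls : J → Fin 4} (i : I4 cls) : X J :=
  (i.1.1, decide (i.1.2.1 ≠ (false, false)), decide (i.1.2.2 ≠ (false, false)))

omit [Fintype J] [DecidableEq J] in
lemma L_ty {cls : J → Fin 4} (hcls : ∀ j, cls j ≠ 3) (i i' : I4 cls) :
    L4 cls i i' = LX cls (ty i) (ty i') :=
  Pool.Agent.W307.RT.L_ty_aux _ _ (hcls _) (hcls _) _ _ _ _ i.2 i'.2

omit [Fintype J] [DecidableEq J] in
lemma ty_inj {cls : J → Fin 4} (hcls : ∀ j, cls j ≠ 3) :
    Function.Injective (ty (cls := cls)) := by
  rintro ⟨⟨j, v, x⟩, h⟩ ⟨⟨j', v', x'⟩, h'⟩ hh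
  unfold ty at hh
  simp only [Prod.mk.injEq] at hh
  obtain ⟨h1, h2, h3⟩ := hh
  subst h1
  obtain ⟨h4, h5⟩ := Pool.Agent.W307.RT.ty_inj_aux (cls j) v x v' x' (by
    have e1 : Al (cls j) v x = true := h
    have e2 : Al (cls j) v' x' = true := h'
    rw [e1, e2, h2, h3]
    simp [hcls j])
  subst h4 h5
  rfl

omit [Fintype J] [DecidableEq J] in
lemma w4_half {cls : J → Fin 4} (hcls : ∀ j, cls j ≠ 3) (i : I4 cls) : w4 cls i = 1 / 2 := by
  unfold w4
  rw [if_neg (hcls _)]

omit [Fintype J] [DecidableEq J] in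
lemma sum_w4 {cls : J → Fin 4} (hcls : ∀ j, cls j ≠ 3) (U : Finset (I4 cls)) :
    ∑ i ∈ U, w4 cls i = (U.card : ℝ) / 2 := by
  rw [sum_congr rfl fun i _ => w4_half hcls i, sum_const, nsmul_eq_mul]
  ring

/-- counting by the fibres -/
lemma card_fib {cls : J → Fin 4} (hcls : ∀ j, cls j ≠ 3) (U : Finset (I4 cls)) (f : J → ℕ)
    (g : J → Finset (Bool × Bool)) (hg : ∀ j, (g j).card ≤ f j)
    (h : ∀ i ∈ U, (ty i).2 ∈ g (ty i).1) : U.card ≤ ∑ j, f j := by
  classical
  calc U.card = (U.image ty).card := (card_image_of_injective U (ty_inj hcls)).symm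
    _ ≤ (univ.sigma g).card := by
        apply card_le_card_of_injOn (fun x => (⟨x.1, x.2⟩ : (_ : J) × (Bool × Bool)))
        · intro x hx
          obtain ⟨i, hi, rfl⟩ := mem_image.1 hx
          exact mem_coe.2 (mem_sigma.2 ⟨mem_univ _, h i hi⟩)
        · rintro ⟨a, b⟩ _ ⟨a', b'⟩ _ hab
          simp only [Sigma.mk.injEq, heq_eq_eq] at hab
          rw [hab.1, hab.2]
    _ = ∑ j, (g j).card := by rw [card_sigma]
    _ ≤ ∑ j, f j := sum_le_sum fun j _ => hg j

open Classical in
/-- the indices whose constants are not squares, of the class `s` -/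
noncomputable def NN (cls : J → Fin 4) (κ : J → Fin 3 → ℤ) (s : Fin 3) : Finset (I4 cls) :=
  univ.filter (fun i => cls i.1.1 = s.castSucc ∧ (ty i).2 = (true, true) ∧ ¬ IsSquare (κ i.1.1 0))

open Classical in
/-- the other indices of the class `s` and the trivial ones -/
noncomputable def QQ (cls : J → Fin 4) (κ : J → Fin 3 → ℤ) (s : Fin 3) : Finset (I4 cls) :=
  univ.filter (fun i => (cls i.1.1 = s.castSucc ∧ ¬ ((ty i).2 = (true, true) ∧
    ¬ IsSquare (κ i.1.1 0))) ∨ (cls i.1.1 ≠ s.castSucc ∧ (ty i).2 = (false, false)))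

lemma mem_NQ {cls : J → Fin 4} {κ : J → Fin 3 → ℤ} {s : Fin 3} {i : I4 cls} :
    i ∈ NN cls κ s ∪ QQ cls κ s ↔ cls i.1.1 = s.castSucc ∨ (ty i).2 = (false, false) := by
  unfold NN QQ
  rw [mem_union, mem_filter, mem_filter]
  simp only [mem_univ, true_and]
  by_cases h : cls i.1.1 = s.castSucc
  · by_cases h2 : (ty i).2 = (true, true) <;> by_cases h3 : IsSquare (κ i.1.1 0) <;>
      simp [h, h2, h3]
  · simp [h]

lemma κ4_NN {cls : J → Fin 4} (hcls : ∀ j, cls j ≠ 3) {κ : J → Fin 3 → ℤ} {s : Fin 3}
    {i : I4 cls} (hi : i ∈ NN cls κ s) : ¬ IsSquare (κ4 cls κ i) := by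
  unfold NN at hi
  rw [mem_filter] at hi
  obtain ⟨-, -, h2, h3⟩ := hi
  unfold ty at h2
  simp only [Prod.mk.injEq, decide_eq_true_eq] at h2
  unfold κ4
  rw [if_neg (by rw [not_or]; exact h2), if_neg (hcls _)]
  exact h3

/-- unlinked with two different nontrivial types means trivial -/
lemma unl_aux : ∀ t t' x : Bool × Bool, t ≠ (false, false) → t' ≠ (false, false) → t ≠ t' →
    (t.1 && x.2) = (x.1 && t.2) → (t'.1 && x.2) = (x.1 && t'.2) → x = (false, false) := by
  decide

lemma three_aux : ∀ S : Finset (Bool × Bool), 2 < S.card → ∃ t ∈ S, ∃ t' ∈ S,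
    t ≠ (false, false) ∧ t' ≠ (false, false) ∧ t ≠ t' := by
  decide

/-- the types unlinked with `b` -/
def Gb (b : Bool × Bool) : Finset (Bool × Bool) :=
  univ.filter (fun x => (x.1 && b.2) = (b.1 && x.2))

lemma card_Gb : ∀ b : Bool × Bool, b ≠ (false, false) → (Gb b).card ≤ 2 := by decide

lemma castSucc_ne {s t : Fin 3} (h : s ≠ t) : s.castSucc ≠ t.castSucc := fun h' =>
  h (Fin.castSucc_injective _ h')

/-- **the average of the local count**, classes of different sizes -/
theorem nb_cls (cls : J → Fin 4) (hcls : ∀ j, cls j ≠ 3) (κ : J → Fin 3 → ℤ)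
    (hκ : ∀ j k, κ j k ≠ 0) (hJ : 0 < Fintype.card J)
    (hb : ∀ s : Fin 3, ∃ S : Finset J, (∀ j, cls j = s.castSucc → IsSquare (κ j 0) → j ∈ S) ∧
      2 * (univ.filter (fun j => cls j = s.castSucc)).card + S.card ≤ Fintype.card J) (c : ℕ) :
    ∃ z0 : ℕ, ∀ z, z0 ≤ z → ∃ C' : ℝ, ∀ y, z < y →
      ∑ s ∈ Tup J z y, NB cls κ s * ∏ j, gw 1 c (s j) ≤
        C' * (Real.log y) ^ (Fintype.card J) := by
  classical
  have hJR : (0 : ℝ) < Fintype.card J := by exact_mod_cast hJ
  have hsum1 : ∑ _j : J, 1 = Fintype.card J := by simp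
  -- the systems
  have hSys : ∀ s : Fin 3, Sys (w4 cls) (L4 cls) ((Fintype.card J : ℕ) : ℝ) (NN cls κ s)
      (QQ cls κ s) := by
    intro s
    refine ⟨fun i hi j hj => ?_, ?_, fun b hb1 hb2 => ?_⟩
    · rw [mem_NQ] at hi hj
      rw [L_ty hcls]
      unfold LX
      by_contra hne
      rw [Bool.not_eq_false, Bool.and_eq_true, Bool.and_eq_true, decide_eq_true_eq] at hne
      obtain ⟨⟨h1, h2⟩, h3⟩ := hne
      have hi' : cls i.1.1 = s.castSucc := by
        rcases hi with h | h
        · exact h
        · rw [h] at h2; simp at h2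
      have hj' : cls j.1.1 = s.castSucc := by
        rcases hj with h | h
        · exact h
        · rw [h] at h3; simp at h3
      exact h1 (show cls i.1.1 = cls j.1.1 by rw [hi', hj'])
    · obtain ⟨S, hS1, hS2⟩ := hb s
      rw [sum_w4 hcls]
      have h1 : (QQ cls κ s).card ≤ ∑ j, ((1 + 2 * (if cls j = s.castSucc then 1 else 0)) +
          (if j ∈ S then 1 else 0)) := by
        apply card_fib hcls _ _ (fun j => if cls j = s.castSucc then
          (if j ∈ S then univ else univ.erase (true, true)) else {(false, false)})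
        · intro j
          by_cases h1 : cls j = s.castSucc
          · by_cases h2 : j ∈ S
            · rw [if_pos h1, if_pos h2, if_pos h1, if_pos h2]
              decide
            · rw [if_pos h1, if_neg h2, if_pos h1, if_neg h2]
              decide
          · rw [if_neg h1, if_neg h1, card_singleton]
            omega
        · intro i hi
          unfold QQ at hi
          rw [mem_filter] at hi
          change (ty i).2 ∈ if cls i.1.1 = s.castSucc then
            (if i.1.1 ∈ S then univ else univ.erase (true, true)) else {(false, false)}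
          rcases hi.2 with ⟨h1, h2⟩ | ⟨h1, h2⟩
          · rw [if_pos h1]
            by_cases h3 : i.1.1 ∈ S
            · rw [if_pos h3]
              exact mem_univ _
            · rw [if_neg h3, mem_erase]
              refine ⟨fun h => h2 ⟨h, fun hsq => h3 (hS1 _ h1 hsq)⟩, mem_univ _⟩
          · rw [if_neg h1, mem_singleton]
            exact h2
      have h2 : ∑ j, ((1 + 2 * (if cls j = s.castSucc then 1 else 0)) +
          (if j ∈ S then 1 else 0)) ≤ 2 * Fintype.card J := by
        rw [sum_add_distrib, sum_add_distrib, ← mul_sum, hsum1, sum_boole, sum_boole]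
        simp only [Nat.cast_id]
        have h3 : (univ.filter (fun j => j ∈ S)).card = S.card := by
          congr 1
          ext j
          simp
        rw [h3]
        omega
      have h3 : ((QQ cls κ s).card : ℝ) ≤ 2 * Fintype.card J := by
        exact_mod_cast h1.trans h2
      linarith
    · have hb3 : ¬ (cls b.1.1 = s.castSucc ∨ (ty b).2 = (false, false)) := by
        rw [← mem_NQ (κ := κ), mem_union, not_or]
        exact ⟨hb1, hb2⟩
      rw [not_or] at hb3
      obtain ⟨hb4, hb5⟩ := hb3
      rw [sum_w4 hcls]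
      have h1 : ((NN cls κ s ∪ QQ cls κ s).filter (fun i => L4 cls i b = L4 cls b i)).card ≤
          ∑ j, (1 + (if cls j = s.castSucc then 1 else 0)) := by
        apply card_fib hcls _ _ (fun j => if cls j = s.castSucc then Gb (ty b).2
          else {(false, false)})
        · intro j
          by_cases h1 : cls j = s.castSucc
          · rw [if_pos h1, if_pos h1]
            exact (card_Gb _ hb5).trans (by norm_num)
          · rw [if_neg h1, if_neg h1, card_singleton]
        · intro i hi
          rw [mem_filter, mem_NQ, L_ty hcls, L_ty hcls] at hi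
          change (ty i).2 ∈ if cls i.1.1 = s.castSucc then Gb (ty b).2 else {(false, false)}
          by_cases h1 : cls i.1.1 = s.castSucc
          · rw [if_pos h1]
            unfold Gb
            rw [mem_filter]
            refine ⟨mem_univ _, ?_⟩
            have h2 := hi.2
            unfold LX at h2
            have e1 : cls (ty i).1 ≠ cls (ty b).1 := by
              change cls i.1.1 ≠ cls b.1.1
              rw [h1]
              exact fun h => hb4 h.symm
            have e2 : cls (ty b).1 ≠ cls (ty i).1 := e1.symm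
            rw [decide_eq_true e1, decide_eq_true e2, Bool.true_and, Bool.true_and] at h2
            exact h2
          · rw [if_neg h1, mem_singleton]
            exact hi.1.resolve_left h1
      have h2 : ∑ j, (1 + (if cls j = s.castSucc then 1 else 0)) < 2 * Fintype.card J := by
        rw [sum_add_distrib, hsum1, sum_boole, Nat.cast_id]
        have h3 : (univ.filter (fun j => cls j = s.castSucc)).card < Fintype.card J := by
          apply card_lt_univ_of_notMem (x := b.1.1)
          rw [mem_filter]
          exact fun h => hb4 h.2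
        omega
      have h3 : (((NN cls κ s ∪ QQ cls κ s).filter
          (fun i => L4 cls i b = L4 cls b i)).card : ℝ) < 2 * Fintype.card J := by
        exact_mod_cast h1.trans_lt h2
      linarith
  -- the unlinked sets
  have hU : ∀ U : Finset (I4 cls), (∀ i ∈ U, ∀ j ∈ U, L4 cls i j = L4 cls j i) →
      (∀ s, ¬ U ⊆ NN cls κ s ∪ QQ cls κ s) → ∑ i ∈ U, w4 cls i ≤ ((Fintype.card J : ℕ) : ℝ) := by
    intro U hU hs
    rw [sum_w4 hcls]
    have h1 : U.card ≤ ∑ _j : J, 2 := by
      apply card_fib hcls U (fun _ => 2)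
        (fun j => univ.filter (fun t : Bool × Bool => ∃ i ∈ U, ty i = (j, t)))
      · intro j
        by_contra hlt
        rw [not_le] at hlt
        obtain ⟨t, ht, t', ht', h1, h2, h3⟩ := three_aux _ hlt
        rw [mem_filter] at ht ht'
        obtain ⟨-, i, hi, hit⟩ := ht
        obtain ⟨-, i', hi', hit'⟩ := ht'
        obtain ⟨s, hsj⟩ : ∃ s : Fin 3, cls j = s.castSucc := by
          have := hcls j
          revert this
          generalize cls j = q
          revert q
          decide
        apply hs s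
        intro x hx
        rw [mem_NQ]
        by_cases hxs : cls x.1.1 = s.castSucc
        · exact Or.inl hxs
        · right
          have hxj : cls (ty x).1 ≠ cls j := by
            change cls x.1.1 ≠ cls j
            rw [hsj]; exact hxs
          have e1 := hU i hi x hx
          have e2 := hU i' hi' x hx
          rw [L_ty hcls, L_ty hcls, hit] at e1
          rw [L_ty hcls, L_ty hcls, hit'] at e2
          unfold LX at e1 e2
          simp only [decide_eq_true hxj, decide_eq_true hxj.symm, Bool.true_and] at e1 e2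
          exact unl_aux t t' (ty x).2 h1 h2 h3 e1 e2
      · intro i hi
        rw [mem_filter]
        exact ⟨mem_univ _, i, hi, rfl⟩
    have h2 : (U.card : ℝ) ≤ 2 * Fintype.card J := by
      have : U.card ≤ 2 * Fintype.card J := by
        refine h1.trans (le_of_eq ?_)
        rw [sum_const, card_univ, smul_eq_mul, mul_comm]
      exact_mod_cast this
    linarith
  have hI : ∀ s t : Fin 3, s ≠ t → ∑ i ∈ (NN cls κ s ∪ QQ cls κ s) ∩
      (NN cls κ t ∪ QQ cls κ t), w4 cls i < ((Fintype.card J : ℕ) : ℝ) := by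
    intro s t hst
    rw [sum_w4 hcls]
    have h1 : ((NN cls κ s ∪ QQ cls κ s) ∩ (NN cls κ t ∪ QQ cls κ t)).card ≤ ∑ _j : J, 1 := by
      apply card_fib hcls _ (fun _ => 1) (fun j => {(false, false)})
      · intro j
        rw [card_singleton]
      · intro i hi
        rw [mem_inter, mem_NQ, mem_NQ] at hi
        rw [mem_singleton]
        rcases hi.1 with h | h
        · rcases hi.2 with h' | h'
          · exact absurd (h.symm.trans h') (castSucc_ne hst)
          · exact h'
        · exact h
    rw [hsum1] at h1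
    have h2 : (((NN cls κ s ∪ QQ cls κ s) ∩ (NN cls κ t ∪ QQ cls κ t)).card : ℝ) ≤
        Fintype.card J := by exact_mod_cast h1
    linarith
  obtain ⟨z0, hz0⟩ := ratm_of
    (Pool.Agent.W655.RK.blw_of (_root_.W37.RK.bl_of Pool.Agent.W505.RK.ls))
    (Pool.Agent.W655.RK.ep_of Pool.Agent.W586.RK.UB.ub) Pool.Agent.W655.RK.full
    Pool.Agent.W586.RK.UB.ub Pool.Agent.W583.RT.fsb
    (w4 cls) (L4 cls) (κ4 cls κ) c ((Fintype.card J : ℕ) : ℝ) (NN cls κ) (QQ cls κ)
    (w4_pos cls) (L4_self cls) (κ4_ne cls κ hκ) (fun s n hn => κ4_NN hcls hn)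
    (Nat.cast_nonneg _) hSys hU hI
  refine ⟨max z0 (2 + ∑ j, ∑ k, (κ j k).natAbs), fun z hz => ?_⟩
  obtain ⟨C, hC⟩ := hz0 z (le_trans (le_max_left _ _) hz)
  refine ⟨C, fun y hy => ?_⟩
  have hz2 : 2 + ∑ j, ∑ k, (κ j k).natAbs ≤ z := le_trans (le_max_right _ _) hz
  rw [Pool.Agent.W762.RK2.exp4 J cls κ c z y (by omega) hκ (fun j k => by
    have h1 := single_le_sum (f := fun k => (κ j k).natAbs) (fun _ _ => Nat.zero_le _) (mem_univ k)
    have h2 := single_le_sum (f := fun j => ∑ k, (κ j k).natAbs) (fun _ _ => Nat.zero_le _)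
      (mem_univ j)
    omega)]
  refine (le_trans (le_abs_self _) (hC y hy)).trans (le_of_eq ?_)
  rw [Real.rpow_natCast]

end Pool.Agent.V7H45.CL
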