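import Mathlib

/-! MP_788af2_nt (helper45): there are many coprime pairs where given linear forms do not vanish. -/

namespace Pool.Agent.V7H45.CP

open Finset

lemma sum_inv_sq (K : ℕ) (hK : 2 ≤ K) : ∑ d ∈ Icc 3 K, (1 : ℝ) / (d : ℝ) ^ 2 ≤ 1 / 2 - 1 / K := by
  induction K, hK using Nat.le_induction with
  | base => norm_num
  | succ K hK ih =>
    rw [← Finset.insert_Icc_right_eq_Icc_add_one (by omega), Finset.sum_insert (by simp)]
    have hK0 : (0 : ℝ) < K := by
      have : 0 < K := by omega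
      exact_mod_cast this
    have h1 : (1 : ℝ) / ((K + 1 : ℕ) : ℝ) ^ 2 ≤ 1 / K - 1 / ((K + 1 : ℕ) : ℝ) := by
      push_cast
      rw [div_sub_div _ _ hK0.ne' (by positivity), div_le_div_iff₀ (by positivity) (by positivity)]
      nlinarith
    linarith

/-- the pairs of positive integers up to `T` -/
def Sq (T : ℕ) : Finset (ℕ × ℕ) := Ioc 0 T ×ˢ Ioc 0 T

lemma card_mult (T d : ℕ) (hd : 0 < d) :
    (((Sq T).filter (fun t => d ∣ t.1 ∧ d ∣ t.2)).card : ℝ) ≤ (T : ℝ) ^ 2 * (1 / (d : ℝ) ^ 2) := by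
  have h1 : (Sq T).filter (fun t => d ∣ t.1 ∧ d ∣ t.2) =
      (Ioc 0 T).filter (fun x => d ∣ x) ×ˢ (Ioc 0 T).filter (fun x => d ∣ x) := by
    ext t
    simp only [Sq, mem_filter, mem_product]
    tauto
  rw [h1, card_product, Nat.Ioc_filter_dvd_card_eq_div]
  push_cast
  have hd' : (0 : ℝ) < d := by exact_mod_cast hd
  have h2 : ((T / d : ℕ) : ℝ) ≤ T / d := Nat.cast_div_le
  calc ((T / d : ℕ) : ℝ) * ((T / d : ℕ) : ℝ) ≤ (T / d) * (T / d) := by gcongr
    _ = _ := by field_simp

lemma coprime_count (T : ℕ) :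
    (T : ℝ) ^ 2 / 4 ≤ (((Sq T).filter (fun t => t.1.Coprime t.2)).card : ℝ) := by
  classical
  have hcov : Sq T ⊆ (Sq T).filter (fun t => t.1.Coprime t.2) ∪
      ((Sq T).filter (fun t => 2 ∣ t.1 ∧ 2 ∣ t.2) ∪
        (Icc 3 T).biUnion (fun d => (Sq T).filter (fun t => d ∣ t.1 ∧ d ∣ t.2))) := by
    intro t ht
    by_cases hc : t.1.Coprime t.2
    · exact mem_union_left _ (mem_filter.2 ⟨ht, hc⟩)
    · apply mem_union_right
      obtain ⟨p, hp, h1, h2⟩ := Nat.Prime.not_coprime_iff_dvd.1 hc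
      by_cases hp2 : p = 2
      · subst hp2
        exact mem_union_left _ (mem_filter.2 ⟨ht, h1, h2⟩)
      · apply mem_union_right
        rw [mem_biUnion]
        have h3 := hp.two_le
        have ht' := ht
        unfold Sq at ht'
        rw [mem_product, mem_Ioc, mem_Ioc] at ht'
        have h4 := Nat.le_of_dvd ht'.1.1 h1
        exact ⟨p, mem_Icc.2 ⟨by omega, by omega⟩, mem_filter.2 ⟨ht, h1, h2⟩⟩
  have h := (card_le_card hcov).trans ((card_union_le _ _).trans (Nat.add_le_add_left
    ((card_union_le _ _).trans (Nat.add_le_add_left card_biUnion_le _)) _))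
  have hS : (Sq T).card = T * T := by unfold Sq; simp
  rw [hS] at h
  have h' : (T : ℝ) * T ≤ (((Sq T).filter (fun t => t.1.Coprime t.2)).card : ℝ) +
      ((((Sq T).filter (fun t => 2 ∣ t.1 ∧ 2 ∣ t.2)).card : ℝ) +
        ∑ d ∈ Icc 3 T, (((Sq T).filter (fun t => d ∣ t.1 ∧ d ∣ t.2)).card : ℝ)) := by
    exact_mod_cast h
  have h2 := card_mult T 2 (by norm_num)
  have h3 : ∑ d ∈ Icc 3 T, (((Sq T).filter (fun t => d ∣ t.1 ∧ d ∣ t.2)).card : ℝ) ≤
      (T : ℝ) ^ 2 * (1 / 2) := by
    calc _ ≤ ∑ d ∈ Icc 3 T, (T : ℝ) ^ 2 * (1 / (d : ℝ) ^ 2) := by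
          apply sum_le_sum
          intro d hd
          exact card_mult T d (by rw [mem_Icc] at hd; omega)
      _ = (T : ℝ) ^ 2 * ∑ d ∈ Icc 3 T, 1 / (d : ℝ) ^ 2 := by rw [mul_sum]
      _ ≤ (T : ℝ) ^ 2 * (1 / 2) := by
          apply mul_le_mul_of_nonneg_left _ (by positivity)
          rcases Nat.lt_or_ge T 2 with h | h
          · rw [Icc_eq_empty (by omega)]
            norm_num
          · have h4 := sum_inv_sq T h
            have h5 : (0 : ℝ) ≤ 1 / T := by positivity
            linarith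
  norm_num at h2
  nlinarith

/-- the coprime pairs where no form vanishes -/
lemma count_forms {n : ℕ} (α β : Fin n → ℤ) (hαβ : ∀ j, α j ≠ 0 ∨ β j ≠ 0) (T : ℕ)
    (hT : 8 * n ≤ T) : (T : ℝ) ^ 2 / 8 ≤ (((Sq T).filter (fun t => t.1.Coprime t.2 ∧
      ∀ j, α j * (t.1 : ℤ) + β j * (t.2 : ℤ) ≠ 0)).card : ℝ) := by
  classical
  have hz : ∀ j, ((Sq T).filter (fun t => α j * (t.1 : ℤ) + β j * (t.2 : ℤ) = 0)).card ≤ T := by
    intro j
    calc _ ≤ (Ioc 0 T).card := by
          apply card_le_card_of_injOn (fun t => t.1)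
          · intro t ht
            have ht1 := (mem_filter.1 (mem_coe.1 ht)).1
            unfold Sq at ht1
            exact mem_coe.2 (mem_product.1 ht1).1
          · rintro ⟨u, v⟩ ht ⟨u', v'⟩ ht' huu
            simp only at huu
            subst huu
            have h1 := mem_filter.1 (mem_coe.1 ht)
            have h2 := mem_filter.1 (mem_coe.1 ht')
            unfold Sq at h1 h2
            simp only [mem_product, mem_Ioc] at h1 h2
            have hβ : β j ≠ 0 := by
              intro hb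
              have hα := (hαβ j).resolve_right (fun h => h hb)
              have h3 := h1.2
              rw [hb, zero_mul, add_zero] at h3
              rcases mul_eq_zero.1 h3 with h | h
              · exact hα h
              · have : u = 0 := by exact_mod_cast h
                omega
            have h4 : β j * ((v : ℤ) - v') = 0 := by linear_combination h1.2 - h2.2
            rcases mul_eq_zero.1 h4 with h | h
            · exact absurd h hβ
            · have : v = v' := by
                have : (v : ℤ) = v' := by linarith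
                exact_mod_cast this
              rw [this]
      _ = T := by simp
  have hcov : (Sq T).filter (fun t => t.1.Coprime t.2) ⊆
      (Sq T).filter (fun t => t.1.Coprime t.2 ∧ ∀ j, α j * (t.1 : ℤ) + β j * (t.2 : ℤ) ≠ 0) ∪
        univ.biUnion (fun j : Fin n =>
          (Sq T).filter (fun t => α j * (t.1 : ℤ) + β j * (t.2 : ℤ) = 0)) := by
    intro t ht
    rw [mem_filter] at ht
    by_cases h : ∀ j, α j * (t.1 : ℤ) + β j * (t.2 : ℤ) ≠ 0
    · exact mem_union_left _ (mem_filter.2 ⟨ht.1, ht.2, h⟩)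
    · push Not at h
      obtain ⟨j, hj⟩ := h
      exact mem_union_right _ (mem_biUnion.2 ⟨j, mem_univ j, mem_filter.2 ⟨ht.1, hj⟩⟩)
  have h := (card_le_card hcov).trans ((card_union_le _ _).trans (Nat.add_le_add_left
    card_biUnion_le _))
  have h2 : ∑ j : Fin n, ((Sq T).filter
      (fun t => α j * (t.1 : ℤ) + β j * (t.2 : ℤ) = 0)).card ≤ n * T := by
    calc _ ≤ ∑ _j : Fin n, T := sum_le_sum fun j _ => hz j
      _ = n * T := by simp
  have h3 : (((Sq T).filter (fun t => t.1.Coprime t.2)).card : ℝ) ≤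
      (((Sq T).filter (fun t => t.1.Coprime t.2 ∧
      ∀ j, α j * (t.1 : ℤ) + β j * (t.2 : ℤ) ≠ 0)).card : ℝ) + n * T := by
    exact_mod_cast h.trans (Nat.add_le_add_left h2 _)
  have h4 := coprime_count T
  have h5 : (8 : ℝ) * n ≤ T := by exact_mod_cast hT
  have h6 : (0 : ℝ) ≤ T := Nat.cast_nonneg _
  nlinarith

end Pool.Agent.V7H45.CP
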