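import Mathlib

/-!
Auxiliary combinatorics for `MP_03f7b8_gt`: bases of subinfinite rank and metacompactness.
-/

namespace Pool.Agent.V7H45.SubRank

open Set TopologicalSpace CategoryTheory

set_option linter.unusedSectionVars false

universe u

/-! ### Posets without infinite strong antichains -/

section Poset

variable {α : Type u} [Preorder α]

/-- `A` is a strong antichain of `P`: a subset of `P` whose distinct members have no common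
upper bound in `P`. -/
def StrongAnti (P A : Set α) : Prop :=
  A ⊆ P ∧ ∀ a ∈ A, ∀ b ∈ A, a ≠ b → ¬ ∃ c ∈ P, a ≤ c ∧ b ≤ c

lemma exists_directed_cone {P : Set α} (hP : ∀ A, StrongAnti P A → A.Finite) {x : α}
    (hx : x ∈ P) : ∃ x' ∈ P, x ≤ x' ∧ DirectedOn (· ≤ ·) {y | y ∈ P ∧ x' ≤ y} := by
  by_contra hcon
  push Not at hcon
  have key : ∀ y : {y // y ∈ P ∧ x ≤ y}, ∃ a b : {y // y ∈ P ∧ x ≤ y},
      y.1 ≤ a.1 ∧ y.1 ≤ b.1 ∧ ¬ ∃ c ∈ P, a.1 ≤ c ∧ b.1 ≤ c := by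
    intro y
    have h := hcon y.1 y.2.1 y.2.2
    rw [DirectedOn] at h
    push Not at h
    obtain ⟨a, ha, b, hb, hab⟩ := h
    refine ⟨⟨a, ha.1, y.2.2.trans ha.2⟩, ⟨b, hb.1, y.2.2.trans hb.2⟩, ha.2, hb.2, ?_⟩
    rintro ⟨c, hc, h1, h2⟩
    exact hab c ⟨hc, ha.2.trans h1⟩ h1 h2
  choose f g hf hg hfg using key
  let s : ℕ → {y // y ∈ P ∧ x ≤ y} := fun n => Nat.rec ⟨x, hx, le_rfl⟩ (fun _ y => g y) n
  have hs : ∀ n, s (n + 1) = g (s n) := fun n => rfl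
  have hmono : ∀ n m, n ≤ m → (s n).1 ≤ (s m).1 := by
    intro n m hnm
    induction hnm with
    | refl => exact le_rfl
    | step h ih => exact ih.trans (by rw [Nat.succ_eq_add_one, hs]; exact hg _)
  have hsep : ∀ n m, n < m → ¬ ∃ c ∈ P, (f (s n)).1 ≤ c ∧ (f (s m)).1 ≤ c := by
    rintro n m hnm ⟨c, hc, h1, h2⟩
    refine hfg (s n) ⟨c, hc, h1, ?_⟩
    rw [← hs]
    exact ((hmono (n + 1) m hnm).trans (hf (s m))).trans h2
  have hinj : Function.Injective (fun n => (f (s n)).1) := by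
    intro n m hnm
    have hnm' : (f (s n)).1 = (f (s m)).1 := hnm
    by_contra hne
    rcases lt_or_gt_of_ne hne with h | h
    · exact hsep n m h ⟨(f (s n)).1, (f (s n)).2.1, le_rfl, hnm'.ge⟩
    · exact hsep m n h ⟨(f (s n)).1, (f (s n)).2.1, hnm'.ge, le_rfl⟩
  have hA : StrongAnti P (range fun n => (f (s n)).1) := by
    refine ⟨?_, ?_⟩
    · rintro _ ⟨n, rfl⟩
      exact (f (s n)).2.1
    · rintro _ ⟨n, rfl⟩ _ ⟨m, rfl⟩ hne
      have hne' : n ≠ m := fun h => hne (by rw [h])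
      rcases lt_or_gt_of_ne hne' with h | h
      · exact hsep n m h
      · rintro ⟨c, hc, h1, h2⟩
        exact hsep m n h ⟨c, hc, h2, h1⟩
  exact (Set.infinite_range_of_injective hinj) (hP _ hA)

/-- In a poset all of whose strong antichains are finite there are finitely many directed sets
such that each nonempty directed set is contained in one of them. -/
lemma fin_ideals {P : Set α} (hP : ∀ A, StrongAnti P A → A.Finite) :
    ∃ I : Set (Set α), I.Finite ∧ (∀ D ∈ I, D ⊆ P ∧ DirectedOn (· ≤ ·) D) ∧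
      ∀ D : Set α, D ⊆ P → D.Nonempty → DirectedOn (· ≤ ·) D → ∃ E ∈ I, D ⊆ E := by
  classical
  -- maximal strong antichain of elements with directed cone
  obtain ⟨A, hAmax⟩ := zorn_subset
    {A : Set α | StrongAnti P A ∧ ∀ a ∈ A, DirectedOn (· ≤ ·) {y | y ∈ P ∧ a ≤ y}} (by
      intro c hc hchain
      refine ⟨⋃₀ c, ⟨⟨?_, ?_⟩, ?_⟩, ?_⟩
      · exact sUnion_subset fun s hs => (hc hs).1.1
      · rintro a ⟨s, hs, has⟩ b ⟨t, ht, hbt⟩ hab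
        rcases hchain.total hs ht with h | h
        · exact (hc ht).1.2 a (h has) b hbt hab
        · exact (hc hs).1.2 a has b (h hbt) hab
      · rintro a ⟨s, hs, has⟩
        exact (hc hs).2 a has
      · intro s hs
        exact subset_sUnion_of_mem hs)
  have hA := hAmax.prop
  have hAfin : A.Finite := hP A hA.1
  let Id : α → Set α := fun a => {y | y ∈ P ∧ ∃ u ∈ P, y ≤ u ∧ a ≤ u}
  have hcov : ∀ x ∈ P, ∃ a ∈ A, x ∈ Id a := by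
    intro x hx
    obtain ⟨x', hx'P, hxx', hdir⟩ := exists_directed_cone hP hx
    by_cases hx'A : x' ∈ A
    · exact ⟨x', hx'A, hx, x', hx'P, hxx', le_rfl⟩
    · by_contra hno
      push Not at hno
      have hins : StrongAnti P (insert x' A) ∧
          ∀ a ∈ insert x' A, DirectedOn (· ≤ ·) {y | y ∈ P ∧ a ≤ y} := by
        refine ⟨⟨insert_subset hx'P hA.1.1, ?_⟩, ?_⟩
        · rintro a (rfl | ha) b (rfl | hb) hab
          · exact absurd rfl hab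
          · rintro ⟨c, hc, h1, h2⟩
            exact hno b hb ⟨hx, c, hc, hxx'.trans h1, h2⟩
          · rintro ⟨c, hc, h1, h2⟩
            exact hno a ha ⟨hx, c, hc, hxx'.trans h2, h1⟩
          · exact hA.1.2 a ha b hb hab
        · rintro a (rfl | ha)
          · exact hdir
          · exact hA.2 a ha
      have := hAmax.le_of_ge hins (subset_insert x' A)
      exact hx'A (this (mem_insert x' A))
  refine ⟨Id '' A, hAfin.image _, ?_, ?_⟩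
  · rintro _ ⟨a, ha, rfl⟩
    refine ⟨fun y hy => hy.1, ?_⟩
    rintro y₁ ⟨hy₁, u₁, hu₁, hyu₁, hau₁⟩ y₂ ⟨hy₂, u₂, hu₂, hyu₂, hau₂⟩
    obtain ⟨u, ⟨huP, hau⟩, h1, h2⟩ := hA.2 a ha u₁ ⟨hu₁, hau₁⟩ u₂ ⟨hu₂, hau₂⟩
    exact ⟨u, ⟨huP, u, huP, le_rfl, hau⟩, hyu₁.trans h1, hyu₂.trans h2⟩
  · intro D hDP hDne hD
    by_contra hno
    push Not at hno
    have hno' : ∀ a ∈ A, ∃ d ∈ D, d ∉ Id a := by
      intro a ha
      exact not_subset.1 (hno (Id a) ⟨a, ha, rfl⟩)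
    choose! d hdD hdI using hno'
    obtain ⟨e, heD, he⟩ : ∃ e ∈ D, ∀ a ∈ A, d a ≤ e := by
      clear hcov hno hdI
      have : ∀ s : Set α, s.Finite → s ⊆ A → ∃ e ∈ D, ∀ a ∈ s, d a ≤ e := by
        intro s hs
        induction s, hs using Set.Finite.induction_on with
        | empty =>
          intro _
          obtain ⟨e, he⟩ := hDne
          exact ⟨e, he, by simp⟩
        | @insert a s has hs ih =>
          intro hsub
          obtain ⟨e, heD, he⟩ := ih ((subset_insert a s).trans hsub)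
          obtain ⟨e', he'D, h1, h2⟩ := hD e heD (d a) (hdD a (hsub (mem_insert a s)))
          refine ⟨e', he'D, ?_⟩
          rintro b (rfl | hb)
          · exact h2
          · exact (he b hb).trans h1
      exact this A hAfin le_rfl
    obtain ⟨b, hbA, heP, u, huP, heu, hbu⟩ := hcov e (hDP heD)
    exact hdI b hbA ⟨hDP (hdD b hbA), u, huP, (he b hbA).trans heu, hbu⟩

end Poset

/-! ### Maximal directed subfamilies -/

section MD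

variable {X : Type u}

/-- `J` is a maximal directed subfamily of `𝒜`. -/
def MD (𝒜 J : Set (Set X)) : Prop :=
  Maximal (fun K : Set (Set X) => K ⊆ 𝒜 ∧ DirectedOn (· ⊆ ·) K) J

lemma MD.ext {𝒜 D : Set (Set X)} (hD : D ⊆ 𝒜) (hdir : DirectedOn (· ⊆ ·) D) :
    ∃ J, MD 𝒜 J ∧ D ⊆ J := by
  obtain ⟨J, hDJ, hJ⟩ := zorn_subset_nonempty
    {K : Set (Set X) | K ⊆ 𝒜 ∧ DirectedOn (· ⊆ ·) K} (by
      intro c hc hchain hne
      refine ⟨⋃₀ c, ⟨sUnion_subset fun s hs => (hc hs).1, ?_⟩, ?_⟩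
      · rintro a ⟨s, hs, has⟩ b ⟨t, ht, hbt⟩
        rcases hchain.total hs ht with h | h
        · obtain ⟨e, he, h1, h2⟩ := (hc ht).2 a (h has) b hbt
          exact ⟨e, ⟨t, ht, he⟩, h1, h2⟩
        · obtain ⟨e, he, h1, h2⟩ := (hc hs).2 a has b (h hbt)
          exact ⟨e, ⟨s, hs, he⟩, h1, h2⟩
      · intro s hs
        exact subset_sUnion_of_mem hs) D ⟨hD, hdir⟩
  exact ⟨J, hJ, hDJ⟩

/-- A family has no infinite antichain through `z`. -/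
def FACat (𝒜 : Set (Set X)) (z : X) : Prop :=
  ∀ 𝒞 ⊆ 𝒜, IsAntichain (· ⊆ ·) 𝒞 → (∀ C ∈ 𝒞, z ∈ C) → 𝒞.Finite

lemma FACat.mono {𝒜 ℬ : Set (Set X)} {z : X} (h : FACat 𝒜 z) (hs : ℬ ⊆ 𝒜) : FACat ℬ z :=
  fun 𝒞 h1 h2 h3 => h 𝒞 (h1.trans hs) h2 h3

lemma MD.finite_at {𝒜 : Set (Set X)} {z : X} (h : FACat 𝒜 z) :
    {J | MD 𝒜 J ∧ z ∈ ⋃₀ J}.Finite := by
  have hP : ∀ A : Set (Set X), StrongAnti {B | B ∈ 𝒜 ∧ z ∈ B} A → A.Finite := by
    intro A hA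
    refine h A (fun B hB => (hA.1 hB).1) ?_ (fun B hB => (hA.1 hB).2)
    intro a ha b hb hab hsub
    exact hA.2 a ha b hb hab ⟨b, hA.1 hb, hsub, le_rfl⟩
  obtain ⟨I, hIfin, hI, hcov⟩ := fin_ideals hP
  refine (hIfin.image (fun D : Set (Set X) => {B | B ∈ 𝒜 ∧ ∃ B' ∈ D, B ⊆ B'})).subset ?_
  rintro J ⟨hJ, B₀, hB₀J, hzB₀⟩
  have hJ𝒜 : J ⊆ 𝒜 := hJ.prop.1
  have hJdir : DirectedOn (· ⊆ ·) J := hJ.prop.2
  obtain ⟨E, hEI, hE⟩ := hcov {B | B ∈ J ∧ z ∈ B} (fun B hB => ⟨hJ𝒜 hB.1, hB.2⟩)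
    ⟨B₀, hB₀J, hzB₀⟩ (by
      rintro B ⟨hB, hzB⟩ C ⟨hC, hzC⟩
      obtain ⟨D, hD, h1, h2⟩ := hJdir B hB C hC
      exact ⟨D, ⟨hD, h1 hzB⟩, h1, h2⟩)
  refine ⟨E, hEI, ?_⟩
  have hsub : J ⊆ {B | B ∈ 𝒜 ∧ ∃ B' ∈ E, B ⊆ B'} := by
    intro B hB
    obtain ⟨D, hD, h1, h2⟩ := hJdir B hB B₀ hB₀J
    exact ⟨hJ𝒜 hB, D, hE ⟨hD, h2 hzB₀⟩, h1⟩
  refine (hJ.eq_of_subset ⟨fun B hB => hB.1, ?_⟩ hsub).symm
  rintro B ⟨hB, B', hB', hBB'⟩ C ⟨hC, C', hC', hCC'⟩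
  obtain ⟨D, hD, h1, h2⟩ := (hI E hEI).2 B' hB' C' hC'
  exact ⟨D, ⟨((hI E hEI).1 hD).1, D, hD, subset_rfl⟩, hBB'.trans h1, hCC'.trans h2⟩

end MD

/-! ### König's lemma -/

/-- König's lemma for sequences of nonempty finite sets. -/
lemma konig {α : Type u} (S : ℕ → Set α) (hfin : ∀ n, (S n).Finite) (hne : ∀ n, (S n).Nonempty)
    (R : α → α → Prop) (hR : ∀ n, ∀ a ∈ S (n + 1), ∃ b ∈ S n, R a b) :
    ∃ s : ℕ → α, (∀ n, s n ∈ S n) ∧ ∀ n, R (s (n + 1)) (s n) := by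
  classical
  choose! f hfS hfR using hR
  let F : ∀ n, S (n + 1) → S n := fun n a => ⟨f n a.1, hfS n a.1 a.2⟩
  have hfin' : ∀ n, Finite (S n) := fun n => (hfin n).to_subtype
  have hne' : ∀ n, Nonempty (S n) := fun n => (hne n).to_subtype
  let G : ℕᵒᵖ ⥤ Type u := Functor.ofOpSequence (X := fun n => (S n : Type u)) (fun n => ↾(F n))
  have h1 : ∀ j, Finite (G.obj j) := fun j => hfin' _
  have h2 : ∀ j, Nonempty (G.obj j) := fun j => hne' _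
  obtain ⟨s, hs⟩ := nonempty_sections_of_finite_inverse_system G
  let t : ∀ n, S n := fun n => s (Opposite.op n)
  have ht : ∀ n, F n (t (n + 1)) = t n := by
    intro n
    have := hs (homOfLE (Nat.le_add_right n 1)).op
    rw [Functor.ofOpSequence_map_homOfLE_succ] at this
    exact this
  refine ⟨fun n => (t n).1, fun n => (t n).2, fun n => ?_⟩
  have h := hfR n (t (n + 1)).1 (t (n + 1)).2
  have h3 := congrArg Subtype.val (ht n)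
  show R (t (n + 1)).1 (t n).1
  rw [← h3]
  exact h

/-! ### The construction -/

section Main

variable {X : Type u} [TopologicalSpace X]

/-- `𝒜` contains a neighbourhood base of open sets at each point (openness is recorded
separately). -/
def LB (𝒜 : Set (Set X)) : Prop :=
  ∀ x : X, ∀ O : Set X, IsOpen O → x ∈ O → ∃ B ∈ 𝒜, x ∈ B ∧ B ⊆ O

/-- The union of `J` lies in no member of the cover. -/
def Big (𝒰 : Set (Set X)) (J : Set (Set X)) : Prop := ∀ U ∈ 𝒰, ¬ ⋃₀ J ⊆ U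

lemma Big.mono {𝒰 J J' : Set (Set X)} (h : Big 𝒰 J) (hs : J ⊆ J') : Big 𝒰 J' :=
  fun U hU h' => h U hU ((sUnion_mono hs).trans h')

/-- One thinning step. -/
def thin (𝒰 : Set (Set X)) (p : Set (Set X) → X) (u : X → Set X) (𝒜 : Set (Set X)) :
    Set (Set X) :=
  {B | B ∈ 𝒜 ∧ ∀ J, MD 𝒜 J → Big 𝒰 J → B ∈ J → (p J ∉ B ∨ B ⊆ u (p J))}

lemma thin_subset (𝒰 : Set (Set X)) (p : Set (Set X) → X) (u : X → Set X) (𝒜 : Set (Set X)) :
    thin 𝒰 p u 𝒜 ⊆ 𝒜 := fun _ hB => hB.1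

lemma LB.thin [T1Space X] {𝒰 : Set (Set X)} {p : Set (Set X) → X} {u : X → Set X}
    (hu : ∀ x, IsOpen (u x) ∧ x ∈ u x) {𝒜 : Set (Set X)} (hfac : ∀ x, FACat 𝒜 x) (h : LB 𝒜) :
    LB (thin 𝒰 p u 𝒜) := by
  classical
  intro x O hO hxO
  have hfin := MD.finite_at (hfac x)
  let O' : Set X := O ∩ ⋂ J ∈ {J | MD 𝒜 J ∧ x ∈ ⋃₀ J}, (if p J = x then u x else {p J}ᶜ)
  have hO' : IsOpen O' := by
    refine hO.inter (hfin.isOpen_biInter fun J _ => ?_)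
    split_ifs
    · exact (hu x).1
    · exact isOpen_compl_singleton
  have hxO' : x ∈ O' := by
    refine ⟨hxO, ?_⟩
    simp only [mem_iInter]
    intro J _
    split_ifs with hp
    · exact (hu x).2
    · simpa using fun h => hp h.symm
  obtain ⟨B, hB, hxB, hBO⟩ := h x O' hO' hxO'
  refine ⟨B, ⟨hB, ?_⟩, hxB, hBO.trans inter_subset_left⟩
  intro J hJ _ hBJ
  have hsub : B ⊆ (if p J = x then u x else {p J}ᶜ) := by
    intro y hy
    have := (hBO hy).2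
    simp only [mem_iInter] at this
    exact this J ⟨hJ, B, hBJ, hxB⟩
  split_ifs at hsub with hp
  · right
    rw [hp]
    exact hsub
  · left
    intro hpB
    exact (hsub hpB) rfl

lemma not_mem_of_thin {𝒰 : Set (Set X)} {p : Set (Set X) → X} {u : X → Set X}
    (hu : ∀ x, u x ∈ 𝒰) {𝒜 J J' : Set (Set X)} (hJ' : MD (thin 𝒰 p u 𝒜) J') (hbig : Big 𝒰 J')
    (hJ : MD 𝒜 J) (hsub : J' ⊆ J) : p J ∉ ⋃₀ J' := by
  rintro ⟨B, hB, hpB⟩
  refine hbig (u (p J)) (hu _) ?_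
  rintro y ⟨C, hC, hyC⟩
  obtain ⟨D, hD, hBD, hCD⟩ := hJ'.prop.2 B hB C hC
  rcases (hJ'.prop.1 hD).2 J hJ (hbig.mono hsub) (hsub hD) with h | h
  · exact absurd (hBD hpB) h
  · exact h (hCD hyC)

/-- The decreasing sequence of thinned bases. -/
def seqB (𝒰 : Set (Set X)) (p : Set (Set X) → X) (u : X → Set X) (𝒜 : Set (Set X)) :
    ℕ → Set (Set X)
  | 0 => 𝒜
  | n + 1 => thin 𝒰 p u (seqB 𝒰 p u 𝒜 n)

lemma seqB_anti (𝒰 : Set (Set X)) (p : Set (Set X) → X) (u : X → Set X) (𝒜 : Set (Set X))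
    {m n : ℕ} (h : m ≤ n) : seqB 𝒰 p u 𝒜 n ⊆ seqB 𝒰 p u 𝒜 m := by
  induction h with
  | refl => exact subset_rfl
  | step _ ih => exact (thin_subset _ _ _ _).trans ih

lemma no_seq {𝒰 : Set (Set X)} {p : Set (Set X) → X} {u : X → Set X}
    (hdir : DirectedOn (· ⊆ ·) 𝒰) (hu : ∀ x, u x ∈ 𝒰)
    (hp : ∀ J : Set (Set X), (⋃₀ J).Nonempty → p J ∈ ⋃₀ J)
    {𝒜 : Set (Set X)} (h𝒜 : ∀ B ∈ 𝒜, ∃ U ∈ 𝒰, B ⊆ U) {z : X} (hfac : FACat 𝒜 z)
    (J : ℕ → Set (Set X)) (hJ : ∀ k, MD (seqB 𝒰 p u 𝒜 k) (J k)) (hbig : ∀ k, Big 𝒰 (J k))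
    (hz : ∀ k, z ∈ ⋃₀ J k) (hmono : ∀ k, J (k + 1) ⊆ J k) : False := by
  have hanti : ∀ k m, k ≤ m → J m ⊆ J k := by
    intro k m hkm
    induction hkm with
    | refl => exact subset_rfl
    | step _ ih => exact (hmono _).trans ih
  have hpnot : ∀ k m, k < m → p (J k) ∉ ⋃₀ J m := by
    intro k m hkm hmem
    refine not_mem_of_thin hu (hJ (k + 1)) (hbig (k + 1)) (hJ k) (hmono k) ?_
    exact sUnion_mono (hanti (k + 1) m hkm) hmem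
  -- one step of the construction
  have step : ∀ k : ℕ, ∀ U : {U // U ∈ 𝒰}, ∃ (B : Set X) (V : {U // U ∈ 𝒰}),
      B ∈ J k ∧ z ∈ B ∧ p (J k) ∈ B ∧ B ⊆ V.1 ∧ U.1 ⊆ V.1 ∧ ¬ B ⊆ U.1 := by
    intro k U
    obtain ⟨y, ⟨B₁, hB₁, hyB₁⟩, hyU⟩ := not_subset.1 (hbig k U.1 U.2)
    obtain ⟨B₂, hB₂, hzB₂⟩ := hz k
    obtain ⟨B₃, hB₃, hpB₃⟩ := hp (J k) ⟨z, hz k⟩
    obtain ⟨B₄, hB₄, h14, h24⟩ := (hJ k).prop.2 B₁ hB₁ B₂ hB₂
    obtain ⟨B, hB, h4, h3⟩ := (hJ k).prop.2 B₄ hB₄ B₃ hB₃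
    obtain ⟨W, hW, hBW⟩ := h𝒜 B (seqB_anti 𝒰 p u 𝒜 (Nat.zero_le k) ((hJ k).prop.1 hB))
    obtain ⟨V, hV, hWV, hUV⟩ := hdir W hW U.1 U.2
    exact ⟨B, ⟨V, hV⟩, hB, h4 (h24 hzB₂), h3 hpB₃, hBW.trans hWV, hUV,
      fun h => hyU (h (h4 (h14 hyB₁)))⟩
  choose b v hbJ hzb hpb hbv hUv hbU using step
  let U : ℕ → {U // U ∈ 𝒰} := fun n => Nat.rec ⟨u z, hu z⟩ (fun k U => v k U) n
  have hUsucc : ∀ n, U (n + 1) = v n (U n) := fun n => rfl
  have hUmono : ∀ n m, n ≤ m → (U n).1 ⊆ (U m).1 := by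
    intro n m hnm
    induction hnm with
    | refl => exact subset_rfl
    | step _ ih => exact ih.trans (by rw [Nat.succ_eq_add_one, hUsucc]; exact hUv _ _)
  let B : ℕ → Set X := fun n => b n (U n)
  have h1 : ∀ n m, n < m → ¬ B m ⊆ B n := by
    intro n m hnm hsub
    refine hbU m (U m) (hsub.trans ?_)
    have : B n ⊆ (U (n + 1)).1 := by rw [hUsucc]; exact hbv _ _
    exact this.trans (hUmono (n + 1) m hnm)
  have h2 : ∀ n m, n < m → ¬ B n ⊆ B m := by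
    intro n m hnm hsub
    exact hpnot n m hnm ⟨B m, hbJ m (U m), hsub (hpb n (U n))⟩
  have hinj : Function.Injective B := by
    intro n m hnm
    by_contra hne
    rcases lt_or_gt_of_ne hne with h | h
    · exact h1 n m h hnm.ge
    · exact h1 m n h hnm.le
  refine (Set.infinite_range_of_injective hinj) (hfac (range B) ?_ ?_ ?_)
  · rintro _ ⟨n, rfl⟩
    exact seqB_anti 𝒰 p u 𝒜 (Nat.zero_le n) ((hJ n).prop.1 (hbJ n (U n)))
  · rintro _ ⟨n, rfl⟩ _ ⟨m, rfl⟩ hne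
    have hne' : n ≠ m := fun h => hne (by rw [h])
    rcases lt_or_gt_of_ne hne' with h | h
    · exact h2 n m h
    · exact h1 m n h
  · rintro _ ⟨n, rfl⟩
    exact hzb n (U n)

/-- Every open cover has a point-finite open refinement. -/
def Metacompact (X : Type u) [TopologicalSpace X] : Prop :=
  ∀ 𝒰 : Set (Set X), (∀ U ∈ 𝒰, IsOpen U) → ⋃₀ 𝒰 = univ →
    ∃ 𝒱 : Set (Set X), (∀ V ∈ 𝒱, IsOpen V ∧ ∃ U ∈ 𝒰, V ⊆ U) ∧ ⋃₀ 𝒱 = univ ∧
      ∀ x, {V | V ∈ 𝒱 ∧ x ∈ V}.Finite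

/-- `𝓑` has subinfinite rank: every pairwise incomparable subfamily with a common point is
finite. -/
def SubinfiniteRank {X : Type u} (𝓑 : Set (Set X)) : Prop :=
  ∀ 𝒞 ⊆ 𝓑, IsAntichain (· ⊆ ·) 𝒞 → (⋂₀ 𝒞).Nonempty → 𝒞.Finite

lemma SubinfiniteRank.facat {X : Type u} {𝓑 : Set (Set X)} (h : SubinfiniteRank 𝓑) (x : X) :
    FACat 𝓑 x := fun 𝒞 h1 h2 h3 => h 𝒞 h1 h2 ⟨x, fun C hC => h3 C hC⟩

/-- The case of a directed cover. -/
lemma directed_case [T1Space X] [Nonempty X] {𝓑 : Set (Set X)} (hB : IsTopologicalBasis 𝓑)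
    (hfac : ∀ x, FACat 𝓑 x) {𝒰 : Set (Set X)} (hopen : ∀ U ∈ 𝒰, IsOpen U)
    (hcov : ⋃₀ 𝒰 = univ) (hdir : DirectedOn (· ⊆ ·) 𝒰) :
    ∃ 𝒱 : Set (Set X), (∀ V ∈ 𝒱, IsOpen V ∧ ∃ U ∈ 𝒰, V ⊆ U) ∧ ⋃₀ 𝒱 = univ ∧
      ∀ x, {V | V ∈ 𝒱 ∧ x ∈ V}.Finite := by
  classical
  have hu : ∀ x, ∃ U ∈ 𝒰, x ∈ U := fun x => by
    have : x ∈ ⋃₀ 𝒰 := hcov ▸ mem_univ x
    exact this
  choose u hu𝒰 hxu using hu
  let p : Set (Set X) → X := fun J =>
    if h : (⋃₀ J).Nonempty then h.some else Classical.arbitrary X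
  have hp : ∀ J : Set (Set X), (⋃₀ J).Nonempty → p J ∈ ⋃₀ J := by
    intro J h
    simp only [p, dif_pos h]
    exact h.some_mem
  let 𝒜 : Set (Set X) := {B | B ∈ 𝓑 ∧ ∃ U ∈ 𝒰, B ⊆ U}
  have hfac𝒜 : ∀ x, FACat 𝒜 x := fun x => (hfac x).mono (fun B hB => hB.1)
  have hLB0 : LB 𝒜 := by
    intro x O hO hxO
    obtain ⟨B, hB𝓑, hxB, hBO⟩ := hB.exists_subset_of_mem_open (show x ∈ O ∩ u x from ⟨hxO, hxu x⟩)
      (hO.inter (hopen _ (hu𝒰 x)))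
    exact ⟨B, ⟨hB𝓑, u x, hu𝒰 x, hBO.trans inter_subset_right⟩, hxB,
      hBO.trans inter_subset_left⟩
  let S : ℕ → Set (Set X) := seqB 𝒰 p u 𝒜
  have hS𝒜 : ∀ n, S n ⊆ 𝒜 := fun n => seqB_anti 𝒰 p u 𝒜 (Nat.zero_le n)
  have hfacS : ∀ n x, FACat (S n) x := fun n x => (hfac𝒜 x).mono (hS𝒜 n)
  have hLB : ∀ n, LB (S n) := by
    intro n
    induction n with
    | zero => exact hLB0
    | succ n ih => exact LB.thin (fun x => ⟨hopen _ (hu𝒰 x), hxu x⟩) (hfacS n) ih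
  -- parents
  have hpar : ∀ z m n, m ≤ n → ∀ J, (MD (S n) J ∧ Big 𝒰 J ∧ z ∈ ⋃₀ J) →
      ∃ J', (MD (S m) J' ∧ Big 𝒰 J' ∧ z ∈ ⋃₀ J') ∧ J ⊆ J' := by
    rintro z m n hmn J ⟨hJ, hbig, hz⟩
    obtain ⟨J', hJ', hsub⟩ := MD.ext (hJ.prop.1.trans (seqB_anti 𝒰 p u 𝒜 hmn)) hJ.prop.2
    exact ⟨J', ⟨hJ', hbig.mono hsub, sUnion_mono hsub hz⟩, hsub⟩
  have hk : ∀ z : X, ∃ k, ∀ m, k ≤ m → ∀ J, MD (S m) J → Big 𝒰 J → z ∉ ⋃₀ J := by
    intro z
    by_contra hcon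
    have hne : ∀ n, {J | MD (S n) J ∧ Big 𝒰 J ∧ z ∈ ⋃₀ J}.Nonempty := by
      intro n
      by_contra hempty
      refine hcon ⟨n, ?_⟩
      intro m hnm J hJ hbig hz
      obtain ⟨J', hJ', -⟩ := hpar z n m hnm J ⟨hJ, hbig, hz⟩
      exact hempty ⟨J', hJ'⟩
    obtain ⟨s, hs, hsub⟩ := konig (fun n => {J | MD (S n) J ∧ Big 𝒰 J ∧ z ∈ ⋃₀ J})
      (fun n => (MD.finite_at (hfacS n z)).subset fun J hJ => ⟨hJ.1, hJ.2.2⟩) hne
      (fun a b => a ⊆ b) (fun n a ha => hpar z n (n + 1) (Nat.le_succ n) a ha)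
    exact no_seq hdir hu𝒰 hp (fun B hB => hB.2) (hfac𝒜 z) s (fun k => (hs k).1)
      (fun k => (hs k).2.1) (fun k => (hs k).2.2) hsub
  let T : Set (Set X) := {B | ∀ n, B ∈ S n}
  have hTS : ∀ n, T ⊆ S n := fun n B hB => hB n
  have hfacT : ∀ x, FACat T x := fun x => (hfacS 0 x).mono (hTS 0)
  have hLBT : LB T := by
    intro x O hO hxO
    obtain ⟨k, hk'⟩ := hk x
    obtain ⟨B, hBk, hxB, hBO⟩ := hLB k x O hO hxO
    refine ⟨B, ?_, hxB, hBO⟩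
    have h1 : ∀ m, k ≤ m → B ∈ S m := by
      intro m hkm
      induction m, hkm using Nat.le_induction with
      | base => exact hBk
      | succ m hkm ih =>
        refine ⟨ih, ?_⟩
        intro J hJ hbig hBJ
        exact absurd ⟨B, hBJ, hxB⟩ (hk' m hkm J hJ hbig)
    intro n
    rcases le_total k n with h | h
    · exact h1 n h
    · exact seqB_anti 𝒰 p u 𝒜 h hBk
  have hTbig : ∀ J, MD T J → (⋃₀ J).Nonempty → ∃ U ∈ 𝒰, ⋃₀ J ⊆ U := by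
    rintro J hJ ⟨z, hz⟩
    by_contra hno
    have hbig : Big 𝒰 J := by
      intro U hU h
      exact hno ⟨U, hU, h⟩
    obtain ⟨k, hk'⟩ := hk z
    obtain ⟨J', hJ', hsub⟩ := MD.ext (hJ.prop.1.trans (hTS k)) hJ.prop.2
    exact hk' k le_rfl J' hJ' (hbig.mono hsub) (sUnion_mono hsub hz)
  refine ⟨{V | V.Nonempty ∧ ∃ J, MD T J ∧ ⋃₀ J = V}, ?_, ?_, ?_⟩
  · rintro V ⟨hne, J, hJ, rfl⟩
    refine ⟨isOpen_sUnion fun B hBJ => hB.isOpen (hS𝒜 0 (hTS 0 (hJ.prop.1 hBJ))).1, ?_⟩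
    exact hTbig J hJ hne
  · refine eq_univ_of_forall fun x => ?_
    obtain ⟨B, hBT, hxB, -⟩ := hLBT x univ isOpen_univ (mem_univ x)
    obtain ⟨J, hJ, hsub⟩ := MD.ext (𝒜 := T) (D := {B}) (by simpa using hBT) (by
      intro a ha b hb
      rw [mem_singleton_iff] at ha hb
      exact ⟨B, rfl, ha.le, hb.le⟩)
    have hxJ : x ∈ ⋃₀ J := ⟨B, hsub rfl, hxB⟩
    exact ⟨⋃₀ J, ⟨⟨x, hxJ⟩, J, hJ, rfl⟩, hxJ⟩
  · intro x
    refine ((MD.finite_at (hfacT x)).image fun J : Set (Set X) => Set.sUnion J).subset ?_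
    rintro V ⟨⟨-, J, hJ, rfl⟩, hxV⟩
    exact ⟨J, ⟨hJ, hxV⟩, rfl⟩

/-- A `T₁` space with a base without infinite antichains through a point is metacompact. -/
theorem metacompact_of_facat [T1Space X] {𝓑 : Set (Set X)} (hB : IsTopologicalBasis 𝓑)
    (hfac : ∀ x, FACat 𝓑 x) : Metacompact X := by
  classical
  intro 𝒰 hopen hcov
  rcases isEmpty_or_nonempty X with hX | hX
  · exact ⟨∅, by simp, by simpa using (Set.univ_eq_empty_iff.2 hX).symm, fun x => (hX.false x).elim⟩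
  obtain ⟨𝒱, hV1, hV2, hV3⟩ := directed_case hB hfac
    (𝒰 := {W | ∃ s : Finset (Set X), (↑s ⊆ 𝒰) ∧ ⋃₀ (↑s : Set (Set X)) = W}) (by
      rintro W ⟨s, hs, rfl⟩
      exact isOpen_sUnion fun U hU => hopen U (hs hU)) (by
      refine eq_univ_of_forall fun x => ?_
      obtain ⟨U, hU, hxU⟩ : x ∈ ⋃₀ 𝒰 := hcov ▸ mem_univ x
      exact ⟨U, ⟨{U}, by simpa using hU, by simp⟩, hxU⟩) (by
      rintro _ ⟨s, hs, rfl⟩ _ ⟨t, ht, rfl⟩
      refine ⟨_, ⟨s ∪ t, ?_, rfl⟩, ?_, ?_⟩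
      · rw [Finset.coe_union]
        exact union_subset hs ht
      · exact sUnion_mono (by simp)
      · exact sUnion_mono (by simp))
  have hV1' : ∀ V ∈ 𝒱, ∃ s : Finset (Set X), (↑s ⊆ 𝒰) ∧ V ⊆ ⋃₀ (↑s : Set (Set X)) := by
    intro V hV
    obtain ⟨-, W, ⟨s, hs, rfl⟩, hVW⟩ := hV1 V hV
    exact ⟨s, hs, hVW⟩
  choose! s hs𝒰 hVs using hV1'
  refine ⟨{W | ∃ V ∈ 𝒱, ∃ U ∈ s V, W = V ∩ U}, ?_, ?_, ?_⟩
  · rintro W ⟨V, hV, U, hU, rfl⟩
    exact ⟨(hV1 V hV).1.inter (hopen U (hs𝒰 V hV hU)), U, hs𝒰 V hV hU, inter_subset_right⟩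
  · refine eq_univ_of_forall fun x => ?_
    obtain ⟨V, hV, hxV⟩ : x ∈ ⋃₀ 𝒱 := hV2 ▸ mem_univ x
    obtain ⟨U, hU, hxU⟩ := hVs V hV hxV
    exact ⟨V ∩ U, ⟨V, hV, U, hU, rfl⟩, hxV, hxU⟩
  · intro x
    have : (⋃ V ∈ {V | V ∈ 𝒱 ∧ x ∈ V}, (fun U => V ∩ U) '' (s V : Set (Set X))).Finite :=
      (hV3 x).biUnion fun V _ => (s V).finite_toSet.image _
    refine this.subset ?_
    rintro W ⟨⟨V, hV, U, hU, rfl⟩, hxV, -⟩
    simp only [mem_iUnion]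
    exact ⟨V, ⟨hV, hxV⟩, U, hU, rfl⟩

/-- Bases of subinfinite rank restrict to subspaces. -/
theorem subspace_metacompact [T1Space X] {𝓑 : Set (Set X)} (hB : IsTopologicalBasis 𝓑)
    (hfac : SubinfiniteRank 𝓑) (Y : Set X) : Metacompact Y := by
  classical
  have hY : IsTopologicalBasis (preimage (Subtype.val : Y → X) '' 𝓑) :=
    hB.isInducing Topology.IsInducing.subtypeVal
  refine metacompact_of_facat hY ?_
  intro y 𝒞 h𝒞 hanti hy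
  choose! b hb𝓑 hbC using h𝒞
  have hinj : InjOn b 𝒞 := by
    intro C hC C' hC' h
    rw [← hbC hC, ← hbC hC', h]
  have hfin : (b '' 𝒞).Finite := by
    refine hfac (b '' 𝒞) ?_ ?_ ?_
    · rintro _ ⟨C, hC, rfl⟩
      exact hb𝓑 hC
    · rintro _ ⟨C, hC, rfl⟩ _ ⟨C', hC', rfl⟩ hne hsub
      refine hanti hC hC' (fun h => hne (by rw [h])) ?_
      rw [← hbC hC, ← hbC hC']
      exact preimage_mono hsub
    · refine ⟨y.1, ?_⟩
      rintro _ ⟨C, hC, rfl⟩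
      have := hy C hC
      rw [← hbC hC] at this
      exact this
  exact hfin.of_finite_image hinj

end Main

end Pool.Agent.V7H45.SubRank
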